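import Pool.Agent.NH25.GR.Cnt

/-!
# The values of the matrices of power series are invertible
-/

set_option autoImplicit false

open Matrix PowerSeries

namespace Pool.Agent.NH25.GR

open Pool.Agent.Y916.Al Pool.Agent.NH25.AP

theorem cvc_of {f : ℚ⟦X⟧} {C : ℝ} (hC : 0 ≤ C) (hf : ∀ m, |((coeff m f : ℚ) : ℝ)| ≤ C ^ (m + 1)) {z : ℂ}
    (hz : C < ‖z‖) : Cvc (1 / z) f := by
  have hz0 : 0 < ‖z‖ := lt_of_le_of_lt hC hz
  have h1 : Summable fun m : ℕ => C * (C / ‖z‖) ^ m :=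
    (summable_geometric_of_lt_one (by positivity) ((div_lt_one hz0).2 hz)).mul_left C
  refine Summable.of_nonneg_of_le (fun m => by positivity) (fun m => ?_) h1
  have h2 : ‖((coeff m f : ℚ) : ℂ)‖ ≤ C ^ (m + 1) := by
    have h3 : ‖((coeff m f : ℚ) : ℂ)‖ = |((coeff m f : ℚ) : ℝ)| := by
      rw [← Complex.ofReal_ratCast, Complex.norm_real, Real.norm_eq_abs]
    rw [h3]
    exact hf m
  rw [norm_div, norm_one]
  calc ‖((coeff m f : ℚ) : ℂ)‖ * (1 / ‖z‖) ^ m ≤ C ^ (m + 1) * (1 / ‖z‖) ^ m :=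
        mul_le_mul_of_nonneg_right h2 (by positivity)
    _ = C * (C / ‖z‖) ^ m := by
        rw [div_pow, div_pow, one_pow, pow_succ]
        ring

theorem Hm_unit {n : ℕ} {H W : Matrix (Fin n) (Fin n) ℚ⟦X⟧} (hHW : H * W = 1) {C : ℝ} (hC : 0 ≤ C)
    (hH : ∀ a b m, |((coeff m (H a b) : ℚ) : ℝ)| ≤ C ^ (m + 1)) (hW : ∀ a b m, |((coeff m (W a b) : ℚ) : ℝ)| ≤ C ^ (m + 1))
    (z : ℂ) (hz : C < ‖z‖) : IsUnit (Hm H z) := by
  have h1 : Hm H z * Hm W z = 1 := by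
    ext i j
    have h2 : (Hm H z * Hm W z) i j = ∑ l, evc (1 / z) (H i l) * evc (1 / z) (W l j) := by
      rw [Matrix.mul_apply]
      rfl
    have h3 : ∀ l, evc (1 / z) (H i l) * evc (1 / z) (W l j) = evc (1 / z) (H i l * W l j) := fun l =>
      (Cvc.ev_mul (cvc_of hC (hH i l) hz) (cvc_of hC (hW l j) hz)).symm
    have h4 : (H * W) i j = (1 : Matrix (Fin n) (Fin n) ℚ⟦X⟧) i j := by rw [hHW]
    rw [Matrix.mul_apply] at h4
    rw [h2, Finset.sum_congr rfl fun l _ => h3 l, ← Cvc.ev_sum _ _ fun l _ =>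
      (cvc_of hC (hH i l) hz).mul (cvc_of hC (hW l j) hz), h4, Matrix.one_apply, Matrix.one_apply]
    split_ifs
    · exact Pool.Agent.Y916.Al.ev_one
    · exact Pool.Agent.Y916.Al.ev_zero
  exact (Matrix.isUnit_iff_isUnit_det _).2 (IsUnit.of_mul_eq_one (Hm W z).det (by rw [← Matrix.det_mul, h1, Matrix.det_one]))

end Pool.Agent.NH25.GR
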