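import Pool.Agent.Y123.ST.Fc
import Pool.Agent.Y123.GN.A2

/-!
# Conjugate points
-/

set_option autoImplicit false

open Matrix Cardinal

namespace Pool.Agent.NH25.GR

open Pool.Agent.TH127.PT Pool.Agent.Y123.ST

theorem two_alg (R K L : Type) [Field R] [Field K] [Field L] [Algebra R K] [Algebra R L]
    [IsAlgClosed K] [IsAlgClosed L] (hR : #R ≤ ℵ₀) (hK : ℵ₀ < #K) (hKL : #K = #L) :
    ∃ σ : K ≃+* L, ∀ r, σ (algebraMap R K r) = algebraMap R L r := by
  obtain ⟨ι, v, hv⟩ := exists_isTranscendenceBasis' R K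
  obtain ⟨κ, w, hw⟩ := exists_isTranscendenceBasis' R L
  have h1 := IsAlgClosed.cardinal_eq_cardinal_transcendence_basis_of_aleph0_lt' v hv hR hK
  have h2 := IsAlgClosed.cardinal_eq_cardinal_transcendence_basis_of_aleph0_lt' w hw hR (hKL ▸ hK)
  have h3 : #ι = #κ := by rw [← h1, ← h2, hKL]
  obtain ⟨e0⟩ := Cardinal.eq.1 h3
  letI := IsAlgClosed.isAlgClosure_of_transcendence_basis v hv
  letI := IsAlgClosed.isAlgClosure_of_transcendence_basis w hw
  let e : Algebra.adjoin R (Set.range v) ≃ₐ[R] Algebra.adjoin R (Set.range w) :=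
    (hv.1.aevalEquiv.symm.trans (MvPolynomial.renameEquiv R e0)).trans hw.1.aevalEquiv
  refine ⟨IsAlgClosure.equivOfEquiv K L e.toRingEquiv, fun r => ?_⟩
  have h4 : algebraMap R K r = algebraMap (Algebra.adjoin R (Set.range v)) K
      (algebraMap R (Algebra.adjoin R (Set.range v)) r) := rfl
  rw [h4, IsAlgClosure.equivOfEquiv_algebraMap]
  have h5 : e.toRingEquiv (algebraMap R (Algebra.adjoin R (Set.range v)) r) =
      algebraMap R (Algebra.adjoin R (Set.range w)) r := e.commutes r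
  rw [h5]
  rfl

/-- two embeddings of a countable field in the complex numbers are conjugate -/
theorem two_homs (R : Type) [Field R] (hR : #R ≤ ℵ₀) (i1 i2 : R →+* ℂ) :
    ∃ σ : ℂ ≃+* ℂ, ∀ r, σ (i1 r) = i2 r := by
  have h := @two_alg R ℂ ℂ _ _ _ i1.toAlgebra i2.toAlgebra _ _ hR
    (by rw [Cardinal.mk_complex]; exact Cardinal.aleph0_lt_continuum) rfl
  exact h

/-- two embeddings of a countable domain in the complex numbers are conjugate -/
theorem two_dom (R : Type) [CommRing R] [IsDomain R] (hR : #R ≤ ℵ₀) (i1 i2 : R →+* ℂ) (h1 : Function.Injective i1)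
    (h2 : Function.Injective i2) : ∃ σ : ℂ ≃+* ℂ, ∀ r, σ (i1 r) = i2 r := by
  obtain ⟨σ, hσ⟩ := two_homs (FractionRing R) (by rw [IsFractionRing.cardinalMk R (FractionRing R)]; exact hR)
    (IsFractionRing.lift (A := R) (K := FractionRing R) (L := ℂ) (g := i1) h1)
    (IsFractionRing.lift (A := R) (K := FractionRing R) (L := ℂ) (g := i2) h2)
  refine ⟨σ, fun r => ?_⟩
  have h3 := hσ (algebraMap R (FractionRing R) r)
  rw [IsFractionRing.lift_algebraMap, IsFractionRing.lift_algebraMap] at h3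
  exact h3

theorem mvp_countable {B : Type} [Countable B] {K : Type} [Field K] [Countable K] : Countable (MvPolynomial B K) :=
  Function.Injective.countable (f := fun P : MvPolynomial B K => AddMonoidAlgebra.coeff P)
    (AddMonoidAlgebra.coeff_injective (R := K) (M := B →₀ ℕ))

/-- points with the same ideal over a countable field are conjugate -/
theorem exists_conj {B : Type} [Finite B] {K : Subfield ℂ} (hK : (K : Set ℂ).Countable) {x y : B → ℂ}
    (h : ∀ P : MvPolynomial B K, MvPolynomial.aeval x P = 0 ↔ MvPolynomial.aeval y P = 0) :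
    ∃ σ : ℂ ≃+* ℂ, (∀ a ∈ K, σ a = a) ∧ ∀ b, σ (x b) = y b := by
  have hKc : Countable K := hK.to_subtype
  have hRc : Countable (MvPolynomial B K) := mvp_countable
  obtain ⟨P, hP⟩ : ∃ P : Ideal (MvPolynomial B K), P = RingHom.ker (MvPolynomial.aeval x : MvPolynomial B K →ₐ[K] ℂ) :=
    ⟨_, rfl⟩
  have hPp : P.IsPrime := by
    rw [hP]
    exact RingHom.ker_isPrime _
  have hmem1 : ∀ Q, Q ∈ P ↔ MvPolynomial.aeval x Q = 0 := by
    intro Q
    rw [hP, RingHom.mem_ker]
  have hmem2 : ∀ Q, Q ∈ P ↔ MvPolynomial.aeval y Q = 0 := fun Q => (hmem1 Q).trans (h Q)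
  obtain ⟨i1, hi1⟩ : ∃ i1 : MvPolynomial B K ⧸ P →+* ℂ, ∀ Q, i1 (Ideal.Quotient.mk P Q) = MvPolynomial.aeval x Q :=
    ⟨Ideal.Quotient.lift P (MvPolynomial.aeval x : MvPolynomial B K →ₐ[K] ℂ).toRingHom fun a ha => (hmem1 a).1 ha,
      fun Q => rfl⟩
  obtain ⟨i2, hi2⟩ : ∃ i2 : MvPolynomial B K ⧸ P →+* ℂ, ∀ Q, i2 (Ideal.Quotient.mk P Q) = MvPolynomial.aeval y Q :=
    ⟨Ideal.Quotient.lift P (MvPolynomial.aeval y : MvPolynomial B K →ₐ[K] ℂ).toRingHom fun a ha => (hmem2 a).1 ha,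
      fun Q => rfl⟩
  have hj1 : Function.Injective i1 := by
    refine (injective_iff_map_eq_zero i1).2 fun a ha => ?_
    obtain ⟨Q, rfl⟩ := Ideal.Quotient.mk_surjective a
    rw [hi1] at ha
    exact Ideal.Quotient.eq_zero_iff_mem.2 ((hmem1 Q).2 ha)
  have hj2 : Function.Injective i2 := by
    refine (injective_iff_map_eq_zero i2).2 fun a ha => ?_
    obtain ⟨Q, rfl⟩ := Ideal.Quotient.mk_surjective a
    rw [hi2] at ha
    exact Ideal.Quotient.eq_zero_iff_mem.2 ((hmem2 Q).2 ha)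
  have hRcount : Countable (MvPolynomial B K ⧸ P) := Function.Surjective.countable Ideal.Quotient.mk_surjective
  obtain ⟨σ, hσ⟩ := two_dom (MvPolynomial B K ⧸ P) Cardinal.mk_le_aleph0 i1 i2 hj1 hj2
  have hσ' : ∀ Q : MvPolynomial B K, σ (MvPolynomial.aeval x Q) = MvPolynomial.aeval y Q := by
    intro Q
    have h1 := hσ (Ideal.Quotient.mk P Q)
    rwa [hi1, hi2] at h1
  refine ⟨σ, fun a ha => ?_, fun b => ?_⟩
  · have h1 := hσ' (MvPolynomial.C ⟨a, ha⟩)
    rw [MvPolynomial.aeval_C, MvPolynomial.aeval_C] at h1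
    exact h1
  · have h1 := hσ' (MvPolynomial.X b)
    rw [MvPolynomial.aeval_X, MvPolynomial.aeval_X] at h1
    exact h1

end Pool.Agent.NH25.GR
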