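import Pool.Agent.NH25.GR.Aut

/-!
# The closure of the projection of a subtorsor
-/

set_option autoImplicit false
set_option linter.unusedSectionVars false

open Matrix

namespace Pool.Agent.NH25.GR

open Pool.Agent.TH127.PT Pool.Agent.Y123.ST

variable {M M' : Type} [Fintype M] [DecidableEq M] [Fintype M'] [DecidableEq M'] {K : Subfield ℂ}
  {T : Set (Matrix M M ℂ)} {ι : M' → M}

/-- polynomial functions -/
def PFe (F : Matrix M M ℂ → ℂ) : Prop := ∃ d, Pool.Agent.Y123.GN.PF d F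

theorem PFe.const (a : ℂ) : PFe (M := M) fun _ => a := ⟨0, Pool.Agent.Y123.GN.PF.const a⟩

theorem PFe.mul {F G : Matrix M M ℂ → ℂ} (hF : PFe F) (hG : PFe G) : PFe fun X => F X * G X := by
  obtain ⟨d, hd⟩ := hF
  obtain ⟨e, he⟩ := hG
  exact ⟨d + e, hd.mul he⟩

theorem PFe.add {F G : Matrix M M ℂ → ℂ} (hF : PFe F) (hG : PFe G) : PFe fun X => F X + G X := by
  obtain ⟨d, hd⟩ := hF
  obtain ⟨e, he⟩ := hG
  exact ⟨max d e, (hd.mono (le_max_left _ _)).add (he.mono (le_max_right _ _))⟩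

theorem PFe.pow {F : Matrix M M ℂ → ℂ} (hF : PFe F) (k : ℕ) : PFe fun X => F X ^ k := by
  induction k with
  | zero =>
    simp only [pow_zero]
    exact PFe.const 1
  | succ k ih =>
    simp only [pow_succ]
    exact ih.mul hF

theorem PFe.det : PFe fun X : Matrix M M ℂ => X.det := ⟨_, Pool.Agent.Y123.GN.PF.det Pool.Agent.Y123.GN.PM.id⟩

theorem PFe.adj (x z : Matrix M M ℂ) (a b : M) : PFe fun y : Matrix M M ℂ => (x * y.adjugate * z) a b :=
  ⟨_, ((Pool.Agent.Y123.GN.PM.const x).mul Pool.Agent.Y123.GN.PM.adj).mul (Pool.Agent.Y123.GN.PM.const z) a b⟩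

theorem PFe.lin (x z : Matrix M M ℂ) (a b : M) : PFe fun y : Matrix M M ℂ => (x * y * z) a b :=
  ⟨_, ((Pool.Agent.Y123.GN.PM.const x).mul Pool.Agent.Y123.GN.PM.id).mul (Pool.Agent.Y123.GN.PM.const z) a b⟩

/-- composition with a polynomial map -/
theorem PFe.comp {G : Matrix M M ℂ → Matrix M M ℂ} (hG : ∀ a b, PFe fun y => G y a b) (P : MvPolynomial (M × M) ℂ) :
    PFe fun y => MvPolynomial.eval (fl (G y)) P := by
  induction P using MvPolynomial.induction_on with
  | C a =>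
    simp only [MvPolynomial.eval_C]
    exact PFe.const a
  | add p q hp hq =>
    simp only [map_add]
    exact hp.add hq
  | mul_X p b hp =>
    simp only [map_mul, MvPolynomial.eval_X]
    exact hp.mul (hG b.1 b.2)

/-- polynomials in the entries of `x y⁻¹ z` -/
theorem inv_poly (P : MvPolynomial (M × M) ℂ) (x z : Matrix M M ℂ) : ∃ (k : ℕ) (F : Matrix M M ℂ → ℂ), PFe F ∧
    ∀ y : Matrix M M ℂ, IsUnit y.det → F y = y.det ^ k * MvPolynomial.eval (fl (x * y⁻¹ * z)) P := by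
  induction P using MvPolynomial.induction_on with
  | C a =>
    refine ⟨0, fun _ => a, PFe.const a, fun y _ => ?_⟩
    rw [MvPolynomial.eval_C, pow_zero, one_mul]
  | add p q hp hq =>
    obtain ⟨k, F, hF, hF'⟩ := hp
    obtain ⟨l, G, hG, hG'⟩ := hq
    refine ⟨k + l, fun y => y.det ^ l * F y + y.det ^ k * G y, ((PFe.det.pow l).mul hF).add ((PFe.det.pow k).mul hG),
      fun y hy => ?_⟩
    simp only []
    rw [hF' y hy, hG' y hy, map_add, pow_add]
    ring
  | mul_X p b hp =>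
    obtain ⟨k, F, hF, hF'⟩ := hp
    refine ⟨k + 1, fun y => F y * (x * y.adjugate * z) b.1 b.2, hF.mul (PFe.adj x z b.1 b.2), fun y hy => ?_⟩
    have h1 : x * y.adjugate * z = y.det • (x * y⁻¹ * z) := by
      rw [Pool.Agent.Y123.GN.adj_eq hy, Matrix.mul_smul, Matrix.smul_mul]
    simp only []
    rw [hF' y hy, map_mul, MvPolynomial.eval_X, h1, Matrix.smul_apply, smul_eq_mul, pow_succ]
    show _ = _ * (_ * (x * y⁻¹ * z) b.1 b.2)
    ring

/-- functions which vanish on a set stable under automorphisms vanish where the polynomials over `K` do -/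
theorem transferV {𝒳 : Set (Matrix M M ℂ)} {x : Matrix M M ℂ}
    (h𝒳 : ∀ σ : ℂ ≃+* ℂ, (∀ x ∈ K, σ x = x) → ∀ X ∈ 𝒳, X.map σ ∈ 𝒳)
    (hr : ∀ P : MvPolynomial (M × M) ℂ, (∀ m, P.coeff m ∈ K) → Van 𝒳 P → MvPolynomial.eval (fl x) P = 0)
    {F : Matrix M M ℂ → ℂ} (hF : PFe F) (hv : ∀ X ∈ 𝒳, F X = 0) : F x = 0 := by
  classical
  obtain ⟨d, P, hP, hPF⟩ := hF
  rw [hPF]
  -- polynomials with the monomials of `P`
  let poly : (P.support → ℂ) →ₗ[ℂ] MvPolynomial (M × M) ℂ :=
    { toFun := fun a => ∑ m : P.support, MvPolynomial.monomial m.1 (a m)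
      map_add' := by
        intro a b
        simp only [Pi.add_apply, map_add, Finset.sum_add_distrib]
      map_smul' := by
        intro z a
        simp only [Pi.smul_apply, smul_eq_mul, RingHom.id_apply, Finset.smul_sum, MvPolynomial.smul_monomial] }
  have hpoly : ∀ a, poly a = ∑ m : P.support, MvPolynomial.monomial m.1 (a m) := fun a => rfl
  have hev : ∀ a (y : M × M → ℂ), MvPolynomial.eval y (poly a) =
      ∑ m : P.support, a m * m.1.prod fun i e => y i ^ e := by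
    intro a y
    rw [hpoly, map_sum]
    refine Finset.sum_congr rfl fun m _ => ?_
    rw [MvPolynomial.eval_monomial]
  let W : Submodule ℂ (P.support → ℂ) :=
    { carrier := {a | ∀ X ∈ 𝒳, MvPolynomial.eval (fl X) (poly a) = 0}
      zero_mem' := by
        intro X _
        rw [map_zero, map_zero]
      add_mem' := by
        intro a b ha hb X hX
        rw [map_add, map_add, ha X hX, hb X hX, add_zero]
      smul_mem' := by
        intro z a ha X hX
        rw [map_smul, MvPolynomial.smul_eval, ha X hX, mul_zero] }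
  have hW : Pool.Agent.TH119.DR.DefOver K W := by
    refine Pool.Agent.TH119.MX.defOver_of_aut W fun σ hσ a ha X hX => ?_
    have h1 : X.map σ.symm ∈ 𝒳 := h𝒳 σ.symm (symm_fix hσ) X hX
    have h2 := congrArg σ (ha _ h1)
    rw [map_zero, hev, map_sum] at h2
    rw [hev, ← h2]
    refine Finset.sum_congr rfl fun m _ => ?_
    rw [map_mul]
    congr 1
    rw [Finsupp.prod, Finsupp.prod, map_prod]
    refine Finset.prod_congr rfl fun i _ => ?_
    rw [map_pow]
    congr 1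
    show X i.1 i.2 = σ ((X.map σ.symm) i.1 i.2)
    simp
  have hPP : poly (fun m => P.coeff m.1) = P := by
    rw [hpoly]
    conv_rhs => rw [P.as_sum]
    exact Finset.sum_coe_sort P.support (fun m => MvPolynomial.monomial m (P.coeff m))
  have hPW : (fun m : P.support => P.coeff m.1) ∈ W := by
    intro X hX
    rw [hPP, ← hPF]
    exact hv X hX
  have key : ∀ a ∈ Submodule.span ℂ {w | w ∈ W ∧ ∀ a, w a ∈ K}, MvPolynomial.eval (fl x) (poly a) = 0 := by
    intro a ha
    induction ha using Submodule.span_induction with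
    | mem a ha =>
      obtain ⟨h1, h2⟩ := ha
      refine hr (poly a) ?_ h1
      intro m
      rw [hpoly, MvPolynomial.coeff_sum]
      refine Subfield.sum_mem _ fun m' _ => ?_
      rw [MvPolynomial.coeff_monomial]
      split_ifs
      · exact h2 _
      · exact K.zero_mem
    | zero => rw [map_zero, map_zero]
    | add a b _ _ ha hb => rw [map_add, map_add, ha, hb, add_zero]
    | smul z a _ ha => rw [map_smul, MvPolynomial.smul_eval, ha, mul_zero]
  have := key _ (hW hPW)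
  rwa [hPP] at this

/-- the block which belongs to the indices in the image of `ι` -/
def sm (ι : M' → M) (x : Matrix M M ℂ) : Matrix M' M' ℂ := x.submatrix ι ι

/-- the rows in the image of `ι` have entries in the columns in the image of `ι` only -/
def Spl (ι : M' → M) (x : Matrix M M ℂ) : Prop := ∀ a b, b ∉ Set.range ι → x (ι a) b = 0

theorem sm_mul (hι : Function.Injective ι) {x : Matrix M M ℂ} (hx : Spl ι x) (y : Matrix M M ℂ) :
    sm ι (x * y) = sm ι x * sm ι y := by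
  ext a b
  show (x * y) (ι a) (ι b) = _
  rw [Matrix.mul_apply, Matrix.mul_apply]
  symm
  refine Finset.sum_of_injOn ι hι.injOn (fun _ _ => Finset.mem_coe.2 (Finset.mem_univ _)) ?_ fun c _ => rfl
  intro c _ hc
  rw [hx a c (fun ⟨d, hd⟩ => hc ⟨d, Finset.mem_coe.2 (Finset.mem_univ _), hd⟩), zero_mul]

theorem sm_one (hι : Function.Injective ι) : sm ι (1 : Matrix M M ℂ) = 1 := by
  unfold sm
  exact Matrix.submatrix_one ι hι

theorem sm_inv (hι : Function.Injective ι) {x : Matrix M M ℂ} (hx : Spl ι x) (hu : IsUnit x) :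
    sm ι x * sm ι x⁻¹ = 1 := by
  rw [← sm_mul hι hx, Matrix.mul_nonsing_inv _ ((Matrix.isUnit_iff_isUnit_det _).1 hu), sm_one hι]

theorem sm_unit (hι : Function.Injective ι) {x : Matrix M M ℂ} (hx : Spl ι x) (hu : IsUnit x) : IsUnit (sm ι x) := by
  rw [Matrix.isUnit_iff_isUnit_det]
  exact (Matrix.isUnit_iff_isUnit_det _).1 (IsUnit.of_mul_eq_one _ (sm_inv hι hx hu))

theorem sm_tor (hι : Function.Injective ι) {x y : Matrix M M ℂ} (hx : Spl ι x) (hy : Spl ι y) (hu : IsUnit y)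
    (z : Matrix M M ℂ) : sm ι (x * y⁻¹ * z) = sm ι x * (sm ι y)⁻¹ * sm ι z := by
  have h1 : sm ι y * sm ι (y⁻¹ * z) = sm ι z := by
    rw [← sm_mul hι hy, ← Matrix.mul_assoc, Matrix.mul_nonsing_inv _ ((Matrix.isUnit_iff_isUnit_det _).1 hu),
      Matrix.one_mul]
  have h2 : IsUnit (sm ι y).det := (Matrix.isUnit_iff_isUnit_det _).1 (sm_unit hι hy hu)
  have h3 : sm ι (y⁻¹ * z) = (sm ι y)⁻¹ * sm ι z := by
    rw [← h1, ← Matrix.mul_assoc, Matrix.nonsing_inv_mul _ h2, Matrix.one_mul]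
  rw [Matrix.mul_assoc, sm_mul hι hx, h3, Matrix.mul_assoc]

/-- the closure of the projection -/
def TC (K : Subfield ℂ) (ι : M' → M) (T : Set (Matrix M M ℂ)) : Set (Matrix M' M' ℂ) :=
  {y | IsUnit y ∧ ∀ P : MvPolynomial (M' × M') ℂ, (∀ m, P.coeff m ∈ K) → Van (sm ι '' T) P →
    MvPolynomial.eval (fl y) P = 0}

theorem aut_sm (hT : IsSubtorsor K T) : ∀ σ : ℂ ≃+* ℂ, (∀ x ∈ K, σ x = x) → ∀ X ∈ sm ι '' T, X.map σ ∈ sm ι '' T := by
  rintro σ hσ _ ⟨x, hx, rfl⟩
  exact ⟨x.map σ, aut_mem hT hσ hx, rfl⟩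

theorem sub_TC (hι : Function.Injective ι) (hT : IsSubtorsor K T) (hS : ∀ x ∈ T, Spl ι x) {x : Matrix M M ℂ}
    (hx : x ∈ T) : sm ι x ∈ TC K ι T :=
  ⟨sm_unit hι (hS x hx) (hT.isUnit x hx), fun _ _ hP => hP _ ⟨x, hx, rfl⟩⟩

/-- polynomial functions which vanish on the projection vanish on its closure -/
theorem TC_van (hT : IsSubtorsor K T) {F : Matrix M' M' ℂ → ℂ} (hF : PFe F) (hv : ∀ x ∈ T, F (sm ι x) = 0)
    {y : Matrix M' M' ℂ} (hy : y ∈ TC K ι T) : F y = 0 := by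
  refine transferV (K := K) (𝒳 := sm ι '' T) (aut_sm hT) hy.2 hF ?_
  rintro _ ⟨x, hx, rfl⟩
  exact hv x hx

/-- **the closure is a subtorsor** -/
theorem TC_sub (hι : Function.Injective ι) (hT : IsSubtorsor K T) (hS : ∀ x ∈ T, Spl ι x) :
    IsSubtorsor K (TC K ι T) := by
  have h1 : ∀ x ∈ T, ∀ y ∈ T, ∀ z ∈ TC K ι T, sm ι x * (sm ι y)⁻¹ * z ∈ TC K ι T := by
    intro x hx y hy z hz
    have ux := sm_unit hι (hS x hx) (hT.isUnit x hx)
    have uy := sm_unit hι (hS y hy) (hT.isUnit y hy)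
    refine ⟨(ux.mul (Matrix.isUnit_nonsing_inv_iff.2 uy)).mul hz.1, fun P hP hPv => ?_⟩
    refine TC_van hT (F := fun z => MvPolynomial.eval (fl (sm ι x * (sm ι y)⁻¹ * z)) P) ?_ ?_ hz
    · refine PFe.comp (fun a b => ?_) P
      have h2 := PFe.lin (sm ι x * (sm ι y)⁻¹) 1 a b
      simp only [Matrix.mul_one] at h2
      exact h2
    · intro w hw
      rw [← sm_tor hι (hS x hx) (hS y hy) (hT.isUnit y hy)]
      exact hPv _ ⟨_, hT.torsor x hx y hy w hw, rfl⟩
  have h2 : ∀ x ∈ TC K ι T, ∀ y ∈ T, ∀ z ∈ TC K ι T, x * (sm ι y)⁻¹ * z ∈ TC K ι T := by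
    intro x hx y hy z hz
    have uy := sm_unit hι (hS y hy) (hT.isUnit y hy)
    refine ⟨(hx.1.mul (Matrix.isUnit_nonsing_inv_iff.2 uy)).mul hz.1, fun P hP hPv => ?_⟩
    refine TC_van hT (F := fun x => MvPolynomial.eval (fl (x * (sm ι y)⁻¹ * z)) P) ?_ ?_ hx
    · refine PFe.comp (fun a b => ?_) P
      have h2 := PFe.lin 1 ((sm ι y)⁻¹ * z) a b
      simp only [Matrix.one_mul, ← Matrix.mul_assoc] at h2
      exact h2
    · intro w hw
      exact (h1 w hw y hy z hz).2 P hP hPv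
  refine ⟨fun x hx => hx.1, ?_, ?_⟩
  · intro x hx y hy z hz
    refine ⟨(hx.1.mul (Matrix.isUnit_nonsing_inv_iff.2 hy.1)).mul hz.1, fun P hP hPv => ?_⟩
    obtain ⟨k, F, hF, hF'⟩ := inv_poly P x z
    have h3 := TC_van hT hF (fun w hw => by
      have uw := (Matrix.isUnit_iff_isUnit_det _).1 (sm_unit hι (hS w hw) (hT.isUnit w hw))
      rw [hF' _ uw, (h2 x hx w hw z hz).2 P hP hPv, mul_zero]) hy
    have uy := (Matrix.isUnit_iff_isUnit_det _).1 hy.1
    rw [hF' y uy] at h3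
    exact (mul_eq_zero.1 h3).resolve_left (pow_ne_zero _ uy.ne_zero)
  · exact ⟨{P | (∀ m, P.coeff m ∈ K) ∧ Van (sm ι '' T) P}, fun _ hP => hP.1, fun x =>
      ⟨fun h => ⟨h.1, fun P hP => h.2 P hP.1 hP.2⟩, fun h => ⟨h.1, fun P h1 h2 => h.2 P ⟨h1, h2⟩⟩⟩⟩

end Pool.Agent.NH25.GR
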