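import Pool.Agent.NH25.GR.Win3

/-!
# Almost all tuples, with a number of fibres which tends to infinity
-/

set_option autoImplicit false
set_option linter.unusedSectionVars false

open Matrix Module PowerSeries Filter Topology

namespace Pool.Agent.NH25.GR

open Pool.Agent.Y916.Al Pool.Agent.Y916.Af Pool.Agent.Y119.HZ Pool.Agent.Y118.UL Pool.Agent.NH25.AP
open Pool.Agent.TH127.PT Pool.Agent.Y123.ST Pool.Agent.Y123.GN
open Pool.Agent.Y113 hiding ix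

theorem count_proj {k l : ℕ} (X : Fin k → Finset ℂ) {f : Fin l → Fin k} (hf : Function.Injective f)
    (S : Finset (Fin l → ℂ)) : ∃ Q : Finset (Fin k → ℂ), (∀ β, (∀ i, β i ∈ X i) → (fun a => β (f a)) ∈ S → β ∈ Q) ∧
      Q.card * ∏ a, (X (f a)).card ≤ S.card * ∏ i, (X i).card := by
  classical
  obtain ⟨Y, hY⟩ : ∃ Y : (Fin l → ℂ) → ∀ _ : Fin k, Finset ℂ, Y = fun σ i =>
    if h : ∃ a, f a = i then {σ h.choose} else X i := ⟨_, rfl⟩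
  have hY1 : ∀ σ a, Y σ (f a) = {σ a} := by
    intro σ a
    have h1 : ∃ b, f b = f a := ⟨a, rfl⟩
    rw [hY]
    simp only []
    rw [dif_pos h1, hf h1.choose_spec]
  have hY2 : ∀ σ i, i ∉ Finset.univ.image f → Y σ i = X i := by
    intro σ i hi
    rw [hY]
    simp only []
    rw [dif_neg]
    rintro ⟨a, rfl⟩
    exact hi (Finset.mem_image_of_mem f (Finset.mem_univ a))
  refine ⟨S.biUnion fun σ => Fintype.piFinset (Y σ), fun β hβ hS => ?_, ?_⟩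
  · rw [Finset.mem_biUnion]
    refine ⟨_, hS, ?_⟩
    rw [Fintype.mem_piFinset]
    intro i
    by_cases hi : i ∈ Finset.univ.image f
    · obtain ⟨a, -, rfl⟩ := Finset.mem_image.1 hi
      rw [hY1, Finset.mem_singleton]
    · rw [hY2 _ _ hi]
      exact hβ i
  · have h1 : (S.biUnion fun σ => Fintype.piFinset (Y σ)).card ≤
        S.card * ∏ i ∈ Finset.univ \ Finset.univ.image f, (X i).card := by
      refine Finset.card_biUnion_le_card_mul _ _ _ fun σ _ => ?_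
      rw [Fintype.card_piFinset, ← Finset.prod_sdiff (Finset.subset_univ (Finset.univ.image f))]
      have h2 : ∏ x ∈ Finset.univ.image f, (Y σ x).card = 1 := by
        refine Finset.prod_eq_one fun x hx => ?_
        obtain ⟨a, -, rfl⟩ := Finset.mem_image.1 hx
        rw [hY1, Finset.card_singleton]
      rw [h2, mul_one]
      refine le_of_eq (Finset.prod_congr rfl fun x hx => ?_)
      rw [hY2 _ _ (Finset.mem_sdiff.1 hx).2]
    have h3 : ∏ a, (X (f a)).card = ∏ x ∈ Finset.univ.image f, (X x).card := by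
      rw [Finset.prod_image fun a _ b _ h => hf h]
    calc (S.biUnion fun σ => Fintype.piFinset (Y σ)).card * ∏ a, (X (f a)).card ≤
        (S.card * ∏ i ∈ Finset.univ \ Finset.univ.image f, (X i).card) * ∏ a, (X (f a)).card :=
          Nat.mul_le_mul_right _ h1
      _ = S.card * ∏ i, (X i).card := by
          rw [mul_assoc, h3, Finset.prod_sdiff (Finset.subset_univ (Finset.univ.image f))]

theorem count_real {k l : ℕ} (X : Fin k → Finset ℂ) {f : Fin l → Fin k} (hf : Function.Injective f)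
    {S : Finset (Fin l → ℂ)} {T : ℕ} (hT : 1 ≤ T) {M : Fin k → ℕ} {c c₀ C : ℝ} (hc₀ : 0 < c₀)
    (hX : ∀ i, c₀ * (T : ℝ) ^ M i ≤ (X i).card)
    (hS : (S.card : ℝ) ≤ C * (T : ℝ) ^ (((∑ a, M (f a) : ℕ) : ℝ) - c)) : 
    ∃ Q : Finset (Fin k → ℂ), (∀ β, (∀ i, β i ∈ X i) → (fun a => β (f a)) ∈ S → β ∈ Q) ∧
      (Q.card : ℝ) ≤ C / c₀ ^ l * (T : ℝ) ^ (-c) * ∏ i, ((X i).card : ℝ) := by
  obtain ⟨Q, hQ1, hQ2⟩ := count_proj X hf S
  refine ⟨Q, hQ1, ?_⟩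
  have hT0 : (0 : ℝ) < T := by exact_mod_cast hT
  have h1 : (Q.card : ℝ) * ∏ a, ((X (f a)).card : ℝ) ≤ S.card * ∏ i, ((X i).card : ℝ) := by exact_mod_cast hQ2
  have h2 : c₀ ^ l * (T : ℝ) ^ (∑ a, M (f a)) ≤ ∏ a, ((X (f a)).card : ℝ) := by
    have h3 : c₀ ^ l * (T : ℝ) ^ (∑ a, M (f a)) = ∏ a : Fin l, (c₀ * (T : ℝ) ^ M (f a)) := by
      rw [Finset.prod_mul_distrib, Finset.prod_const, Finset.card_univ, Fintype.card_fin, Finset.prod_pow_eq_pow_sum]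
    rw [h3]
    exact Finset.prod_le_prod (fun a _ => by positivity) fun a _ => hX (f a)
  have hpos : 0 < c₀ ^ l * (T : ℝ) ^ (∑ a, M (f a)) := by positivity
  have hprod : 0 ≤ ∏ i, ((X i).card : ℝ) := Finset.prod_nonneg fun i _ => Nat.cast_nonneg _
  have h4 : (Q.card : ℝ) * (c₀ ^ l * (T : ℝ) ^ (∑ a, M (f a))) ≤
      C * (T : ℝ) ^ (((∑ a, M (f a) : ℕ) : ℝ) - c) * ∏ i, ((X i).card : ℝ) :=
    (mul_le_mul_of_nonneg_left h2 (Nat.cast_nonneg _)).trans (h1.trans (mul_le_mul_of_nonneg_right hS hprod))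
  rw [← le_div_iff₀ hpos] at h4
  refine h4.trans (le_of_eq ?_)
  rw [sub_eq_add_neg, Real.rpow_add hT0, Real.rpow_natCast]
  field_simp

variable {s : ℕ} {n : Fin s → ℕ}

/-- **almost all tuples of any length** -/
theorem tupAll (D r : ℕ) {N : ∀ i, Matrix (Fin (n i)) (Fin (n i)) ℤ} {H : ∀ i, Matrix (Fin (n i)) (Fin (n i)) ℚ⟦X⟧}
    (hN : ∀ i, N i ^ n i = 0) (hnr : ∀ i, NRh (hT (H i))) {C : ℝ} (hC : 0 ≤ C)
    (hh : ∀ i a b m, |((coeff m (H i a b) : ℚ) : ℝ)| ≤ C ^ (m + 1)) (m : Fin s → ℕ) (hm : ∀ i, 1 ≤ m i) {η : ℝ}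
    (hη : 0 < η) (hη1 : η ≤ 1) :
    ∃ c C' : ℝ, 0 < c ∧ 0 ≤ C' ∧ ∀ (k : ℕ) (f : Fin k → Fin s) (Ω : ∀ i, Matrix (Fin (n (f i))) (Fin (n (f i))) ℂ)
      (C₀ : Matrix (Fin r) (Fin r) ℂ) (T : ℕ), 1 ≤ T → ∀ a : Fin k → ℕ, (∀ i, 1 ≤ a i ∧ (a i : ℝ) ≤ (T : ℝ) ^ (1 - η)) →
      ∃ Q : Finset (Fin k → ℂ), (Q.card : ℝ) ≤ C' * (k : ℝ) ^ 2 * (T : ℝ) ^ (-c) *
          ∏ i, ({ξ : ℂ | Pool.Agent.Y916.Sl.SInt (m (f i)) T ξ}.ncard : ℝ) ∧
        ∀ β : Fin k → ℂ, (∀ i, Pool.Agent.Y916.Sl.SInt (m (f i)) T (β i)) → β ∉ Q →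
        ∀ ℓ : Fin k → ℂ, (∀ i, Complex.exp (ℓ i) = β i / a i) →
          GoodP D (fun i => Gl (N (f i)) (H (f i)) (Ω i)) (EG C₀ fun i => pC (N (f i)) (H (f i)) (Ω i) (β i / a i) (ℓ i)) := by
  classical
  -- constants
  choose c₁ C₁ hc₁ hC₁ h₁ using fun g : Fin 1 → Fin s => all_A (n := fun i => n (g i)) D r (fun i => hN (g i))
    (fun i => hnr (g i)) hC (fun i => hh (g i)) (fun i => m (g i)) hη hη1
  choose c₂ C₂ hc₂ hC₂ h₂ using fun g : Fin 2 → Fin s => all_A (n := fun i => n (g i)) D r (fun i => hN (g i))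
    (fun i => hnr (g i)) hC (fun i => hh (g i)) (fun i => m (g i)) hη hη1
  choose e he hmany using fun i => Pool.Agent.Y916.Sl.many (m i) (hm i)
  obtain ⟨c, hc, hcc1, hcc2⟩ : ∃ c : ℝ, 0 < c ∧ (∀ g, c ≤ c₁ g) ∧ ∀ g, c ≤ c₂ g := by
    obtain ⟨x, hx, hx'⟩ : ∃ x : ℝ, 0 < x ∧ ∀ g, x ≤ c₁ g := by
      rcases isEmpty_or_nonempty (Fin 1 → Fin s) with h | h
      · exact ⟨1, one_pos, fun g => (h.false g).elim⟩
      · obtain ⟨g₀, hg₀⟩ := Finite.exists_min c₁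
        exact ⟨c₁ g₀, hc₁ g₀, hg₀⟩
    obtain ⟨y, hy, hy'⟩ : ∃ x : ℝ, 0 < x ∧ ∀ g, x ≤ c₂ g := by
      rcases isEmpty_or_nonempty (Fin 2 → Fin s) with h | h
      · exact ⟨1, one_pos, fun g => (h.false g).elim⟩
      · obtain ⟨g₀, hg₀⟩ := Finite.exists_min c₂
        exact ⟨c₂ g₀, hc₂ g₀, hg₀⟩
    exact ⟨min x y, lt_min hx hy, fun g => (min_le_left _ _).trans (hx' g), fun g => (min_le_right _ _).trans (hy' g)⟩
  obtain ⟨e₀, he₀, he₀1, hee⟩ : ∃ e₀ : ℝ, 0 < e₀ ∧ e₀ ≤ 1 ∧ ∀ i, e₀ ≤ e i := by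
    rcases isEmpty_or_nonempty (Fin s) with h | h
    · exact ⟨1, one_pos, le_rfl, fun g => (h.false g).elim⟩
    · obtain ⟨g₀, hg₀⟩ := Finite.exists_min e
      exact ⟨min (e g₀) 1, lt_min (he g₀) one_pos, min_le_right _ _, fun i => (min_le_left _ _).trans (hg₀ i)⟩
  obtain ⟨C', hC', hCC1, hCC2⟩ : ∃ C' : ℝ, 0 ≤ C' ∧ (∀ g, C₁ g ≤ C') ∧ ∀ g, C₂ g ≤ C' := by
    refine ⟨(∑ g, C₁ g) + ∑ g, C₂ g, add_nonneg (Finset.sum_nonneg fun g _ => hC₁ g)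
      (Finset.sum_nonneg fun g _ => hC₂ g), fun g => ?_, fun g => ?_⟩
    · have h1 : C₁ g ≤ ∑ g, C₁ g := Finset.single_le_sum (f := C₁) (fun g _ => hC₁ g) (Finset.mem_univ g)
      have h2 : 0 ≤ ∑ g, C₂ g := Finset.sum_nonneg fun g _ => hC₂ g
      linarith
    · have h1 : C₂ g ≤ ∑ g, C₂ g := Finset.single_le_sum (f := C₂) (fun g _ => hC₂ g) (Finset.mem_univ g)
      have h2 : 0 ≤ ∑ g, C₁ g := Finset.sum_nonneg fun g _ => hC₁ g
      linarith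
  refine ⟨c, C' / e₀ ^ 2 * 2, hc, by positivity, ?_⟩
  intro k f Ω C₀ T hT a ha
  have hT1 : (1 : ℝ) ≤ T := by exact_mod_cast hT
  have hfin : ∀ i, {ξ : ℂ | Pool.Agent.Y916.Sl.SInt (m (f i)) T ξ}.Finite := fun i =>
    Pool.Agent.Y916.Sl.sint_fin (m (f i)) T
  obtain ⟨X, hX⟩ : ∃ X : Fin k → Finset ℂ, X = fun i => (hfin i).toFinset := ⟨_, rfl⟩
  have hXc : ∀ i, ((X i).card : ℝ) = ({ξ : ℂ | Pool.Agent.Y916.Sl.SInt (m (f i)) T ξ}.ncard : ℝ) := by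
    intro i
    rw [hX, Set.ncard_eq_toFinset_card _ (hfin i)]
  have hXm : ∀ i, e₀ * (T : ℝ) ^ Pool.Agent.Y916.Sl.Mm (m (f i)) ≤ (X i).card := by
    intro i
    rw [hXc]
    exact (mul_le_mul_of_nonneg_right (hee _) (by positivity)).trans (hmany (f i) T hT)
  have hP0 : 0 ≤ ∏ i, ((X i).card : ℝ) := Finset.prod_nonneg fun i _ => Nat.cast_nonneg _
  -- one or two fibres
  have key : ∀ (l : ℕ) (hl : l ≤ 2) (φ : Fin l → Fin k), Function.Injective φ → ∀ (c' C'' : ℝ), c ≤ c' → 0 ≤ C'' → C'' ≤ C' →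
      (∀ (Ω : ∀ i, Matrix (Fin (n (f (φ i)))) (Fin (n (f (φ i)))) ℂ) (C₀ : Matrix (Fin r) (Fin r) ℂ) (T : ℕ),
      1 ≤ T → ∀ a : Fin l → ℕ, (∀ i, 1 ≤ a i ∧ (a i : ℝ) ≤ (T : ℝ) ^ (1 - η)) →
      ∃ S : Finset (Fin l → ℂ), (S.card : ℝ) ≤ C'' * (T : ℝ) ^ (((∑ i, Pool.Agent.Y916.Sl.Mm (m (f (φ i))) : ℕ) : ℝ) - c') ∧
        ∀ β : Fin l → ℂ, (∀ i, Pool.Agent.Y916.Sl.AInt (m (f (φ i))) T (β i)) → β ∉ S →
        ∀ ℓ : Fin l → ℂ, (∀ i, Complex.exp (ℓ i) = β i / a i) →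
          GoodT D (fun i => Gl (N (f (φ i))) (H (f (φ i))) (Ω i))
            (EG C₀ fun i => pC (N (f (φ i))) (H (f (φ i))) (Ω i) (β i / a i) (ℓ i))) →
      ∃ Q : Finset (Fin k → ℂ), (Q.card : ℝ) ≤ C' / e₀ ^ 2 * (T : ℝ) ^ (-c) * ∏ i, ((X i).card : ℝ) ∧
        ∀ β : Fin k → ℂ, (∀ i, Pool.Agent.Y916.Sl.SInt (m (f i)) T (β i)) → β ∉ Q →
        ∀ ℓ : Fin k → ℂ, (∀ i, Complex.exp (ℓ i) = β i / a i) →
          GoodT D (fun i => Gl (N (f (φ i))) (H (f (φ i))) (Ω (φ i)))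
            (EG C₀ fun i => pC (N (f (φ i))) (H (f (φ i))) (Ω (φ i)) (β (φ i) / a (φ i)) (ℓ (φ i))) := by
    intro l hl φ hφ c' C'' hcc' hC''0 hC'' hyp
    obtain ⟨S, hS, hS'⟩ := hyp (fun i => Ω (φ i)) C₀ T hT (fun i => a (φ i)) (fun i => ha (φ i))
    obtain ⟨Q, hQ1, hQ2⟩ := count_real X hφ hT (M := fun i => Pool.Agent.Y916.Sl.Mm (m (f i))) he₀ hXm hS
    refine ⟨Q, hQ2.trans ?_, fun β hβ hβQ ℓ hℓ => ?_⟩
    · refine mul_le_mul_of_nonneg_right ?_ hP0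
      refine mul_le_mul ?_ (Real.rpow_le_rpow_of_exponent_le hT1 (by linarith)) (by positivity) (by positivity)
      have h1 : e₀ ^ 2 ≤ e₀ ^ l := pow_le_pow_of_le_one he₀.le he₀1 hl
      exact div_le_div₀ hC' hC'' (by positivity) h1
    · refine hS' (fun i => β (φ i)) (fun i => Pool.Agent.Y916.Sl.SInt.aint (hβ _)) (fun h => hβQ ?_) (fun i => ℓ (φ i))
        fun i => hℓ _
      refine hQ1 β (fun i => ?_) h
      rw [hX]
      exact (Set.Finite.mem_toFinset _).2 (hβ i)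
  have key1 : ∀ φ : Fin 1 → Fin k, Function.Injective φ → ∃ Q : Finset (Fin k → ℂ),
      (Q.card : ℝ) ≤ C' / e₀ ^ 2 * (T : ℝ) ^ (-c) * ∏ i, ((X i).card : ℝ) ∧
        ∀ β : Fin k → ℂ, (∀ i, Pool.Agent.Y916.Sl.SInt (m (f i)) T (β i)) → β ∉ Q →
        ∀ ℓ : Fin k → ℂ, (∀ i, Complex.exp (ℓ i) = β i / a i) →
          GoodT D (fun i => Gl (N (f (φ i))) (H (f (φ i))) (Ω (φ i)))
            (EG C₀ fun i => pC (N (f (φ i))) (H (f (φ i))) (Ω (φ i)) (β (φ i) / a (φ i)) (ℓ (φ i))) :=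
    fun φ hφ => key 1 one_le_two φ hφ _ _ (hcc1 fun i => f (φ i)) (hC₁ _) (hCC1 _) (h₁ fun i => f (φ i))
  have key2 : ∀ φ : Fin 2 → Fin k, Function.Injective φ → ∃ Q : Finset (Fin k → ℂ),
      (Q.card : ℝ) ≤ C' / e₀ ^ 2 * (T : ℝ) ^ (-c) * ∏ i, ((X i).card : ℝ) ∧
        ∀ β : Fin k → ℂ, (∀ i, Pool.Agent.Y916.Sl.SInt (m (f i)) T (β i)) → β ∉ Q →
        ∀ ℓ : Fin k → ℂ, (∀ i, Complex.exp (ℓ i) = β i / a i) →
          GoodT D (fun i => Gl (N (f (φ i))) (H (f (φ i))) (Ω (φ i)))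
            (EG C₀ fun i => pC (N (f (φ i))) (H (f (φ i))) (Ω (φ i)) (β (φ i) / a (φ i)) (ℓ (φ i))) :=
    fun φ hφ => key 2 le_rfl φ hφ _ _ (hcc2 fun i => f (φ i)) (hC₂ _) (hCC2 _) (h₂ fun i => f (φ i))
  choose! Q1 hQ1 hQ1' using key1
  choose! Q2 hQ2 hQ2' using key2
  refine ⟨((Finset.univ : Finset (Fin 1 → Fin k)).filter Function.Injective).biUnion Q1 ∪
    ((Finset.univ : Finset (Fin 2 → Fin k)).filter Function.Injective).biUnion Q2, ?_, fun β hβ hβQ ℓ hℓ => ?_⟩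
  · obtain ⟨B, hB⟩ : ∃ B : ℝ, B = C' / e₀ ^ 2 * (T : ℝ) ^ (-c) * ∏ i, ((X i).card : ℝ) := ⟨_, rfl⟩
    have hB0 : 0 ≤ B := by
      rw [hB]
      exact mul_nonneg (by positivity) hP0
    have g1 : ((((Finset.univ : Finset (Fin 1 → Fin k)).filter Function.Injective).biUnion Q1).card : ℝ) ≤ k ^ 1 * B := by
      refine le_trans (Nat.cast_le.2 Finset.card_biUnion_le) ?_
      push_cast
      refine (Finset.sum_le_card_nsmul _ _ B fun φ hφ => ?_).trans ?_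
      · rw [hB]
        exact hQ1 φ (Finset.mem_filter.1 hφ).2
      · rw [nsmul_eq_mul]
        refine mul_le_mul_of_nonneg_right ?_ hB0
        have h3 := Finset.card_le_univ ((Finset.univ : Finset (Fin 1 → Fin k)).filter Function.Injective)
        rw [Fintype.card_fun, Fintype.card_fin, Fintype.card_fin] at h3
        exact_mod_cast h3
    have g2 : ((((Finset.univ : Finset (Fin 2 → Fin k)).filter Function.Injective).biUnion Q2).card : ℝ) ≤ k ^ 2 * B := by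
      refine le_trans (Nat.cast_le.2 Finset.card_biUnion_le) ?_
      push_cast
      refine (Finset.sum_le_card_nsmul _ _ B fun φ hφ => ?_).trans ?_
      · rw [hB]
        exact hQ2 φ (Finset.mem_filter.1 hφ).2
      · rw [nsmul_eq_mul]
        refine mul_le_mul_of_nonneg_right ?_ hB0
        have h3 := Finset.card_le_univ ((Finset.univ : Finset (Fin 2 → Fin k)).filter Function.Injective)
        rw [Fintype.card_fun, Fintype.card_fin, Fintype.card_fin] at h3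
        exact_mod_cast h3
    have g3 : (k : ℝ) ^ 1 ≤ (k : ℝ) ^ 2 := by
      rcases Nat.eq_zero_or_pos k with h | h
      · rw [h]
        norm_num
      · exact pow_le_pow_right₀ (by exact_mod_cast h) (by norm_num)
    have g4 : (∏ i, ((X i).card : ℝ)) = ∏ i, ({ξ : ℂ | Pool.Agent.Y916.Sl.SInt (m (f i)) T ξ}.ncard : ℝ) :=
      Finset.prod_congr rfl fun i _ => hXc i
    refine le_trans (Nat.cast_le.2 (Finset.card_union_le _ _)) ?_
    push_cast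
    refine (add_le_add g1 g2).trans ?_
    have g5 : (k : ℝ) ^ 1 * B ≤ (k : ℝ) ^ 2 * B := mul_le_mul_of_nonneg_right g3 hB0
    rw [← g4]
    have g6 : C' / e₀ ^ 2 * 2 * (k : ℝ) ^ 2 * (T : ℝ) ^ (-c) * ∏ i, ((X i).card : ℝ) = (k : ℝ) ^ 2 * B + (k : ℝ) ^ 2 * B := by
      rw [hB]
      ring
    rw [g6]
    linarith
  · rw [Finset.mem_union, not_or, Finset.mem_biUnion, Finset.mem_biUnion] at hβQ
    refine goodP_of (fun φ hφ => ?_) fun φ hφ => ?_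
    · exact hQ1' φ hφ β hβ (fun h => hβQ.1 ⟨φ, Finset.mem_filter.2 ⟨Finset.mem_univ φ, hφ⟩, h⟩) ℓ hℓ
    · exact hQ2' φ hφ β hβ (fun h => hβQ.2 ⟨φ, Finset.mem_filter.2 ⟨Finset.mem_univ φ, hφ⟩, h⟩) ℓ hℓ

end Pool.Agent.NH25.GR
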