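import Pool.Agent.NH25.GR.Cl
import Pool.Agent.Y123.GN.E2

/-!
# Lifting of points in connected groups of symmetries of the closure of the projection
-/

set_option autoImplicit false
set_option linter.unusedSectionVars false

open Matrix

namespace Pool.Agent.NH25.GR

open Pool.Agent.TH127.PT Pool.Agent.Y123.ST Pool.Agent.Y123.GN

variable {M M' : Type} [Fintype M] [DecidableEq M] [Fintype M'] [DecidableEq M'] {K : Subfield ℂ}
  {T : Set (Matrix M M ℂ)} {ι : M' → M}

/-- an element which is in no other minimal prime ideal -/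
theorem exists_sep {R : Type} [CommRing R] [IsNoetherianRing R] {I q : Ideal R} (hI : I.IsRadical)
    (hq : q ∈ I.minimalPrimes) : ∃ y, y ∉ q ∧ ∀ P ∈ q, P * y ∈ I := by
  classical
  have hfin := I.finite_minimalPrimes_of_isNoetherianRing
  have hqp : q.IsPrime := hq.1.1
  have h1 : ¬ (hfin.toFinset.erase q).inf id ≤ q := by
    rw [hqp.inf_le']
    rintro ⟨p, hp, hpq⟩
    rw [Finset.mem_erase, Set.Finite.mem_toFinset] at hp
    exact hp.1 (le_antisymm hpq (hq.2 hp.2.1 hpq))
  obtain ⟨y, hy1, hy2⟩ := SetLike.not_le_iff_exists.1 h1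
  refine ⟨y, hy2, fun P hP => ?_⟩
  rw [← hI.radical, ← Ideal.sInf_minimalPrimes, Ideal.mem_sInf]
  intro p hp
  by_cases hpq : p = q
  · rw [hpq]
    exact q.mul_mem_right _ hP
  · refine p.mul_mem_left _ ?_
    have h2 : (hfin.toFinset.erase q).inf id ≤ p := Finset.inf_le (f := id)
      (Finset.mem_erase.2 ⟨hpq, (Set.Finite.mem_toFinset _).2 hp⟩)
    exact h2 hy1

theorem VI_rad (S : Set (Matrix M M ℂ)) : (VI S).IsRadical := by
  intro P hP x hx
  obtain ⟨n, hn⟩ := hP
  have h1 := hn x hx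
  rw [map_pow] at h1
  by_contra h2
  exact pow_ne_zero n h2 h1

/-- the symmetry is connected to the identity by a polynomial curve -/
def Cvd (S : Set (Matrix M M ℂ)) (w : Matrix M M ℂ) : Prop :=
  ∃ g : Matrix M M (Polynomial ℂ), ev 0 g = 1 ∧ ev 1 g = w ∧ ∀ s, ∀ y ∈ S, ev s g * y ∈ S

/-- the component is preserved -/
theorem comp_pres {S : Set (Matrix M M ℂ)} (hSu : ∀ x, x ∈ S ↔ IsUnit x ∧ ∀ P ∈ VI S, MvPolynomial.eval (fl x) P = 0)
    {q : Ideal (MvPolynomial (M × M) ℂ)} (hq : q ∈ (VI S).minimalPrimes) {y : MvPolynomial (M × M) ℂ}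
    (hy : ∀ P ∈ q, P * y ∈ VI S) {w u : Matrix M M ℂ} (hw : Cvd S w) (hu : IsUnit u)
    (huq : ∀ P ∈ q, MvPolynomial.eval (fl u) P = 0) (huy : MvPolynomial.eval (fl u) y ≠ 0) :
    ∀ P ∈ q, MvPolynomial.eval (fl (w * u)) P = 0 := by
  intro P hP
  obtain ⟨g, h0, h1, hg⟩ := hw
  have huS : u ∈ S := (hSu u).2 ⟨hu, fun P hP => huq P (hq.1.2 hP)⟩
  obtain ⟨G, hG⟩ : ∃ G : M × M → Polynomial ℂ, ∀ s, (fun b => (G b).eval s) = fl (ev s g * u) := by
    refine ⟨fun b => ∑ c, g b.1 c * Polynomial.C (u c b.2), fun s => ?_⟩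
    funext b
    show _ = (ev s g * u) b.1 b.2
    rw [Matrix.mul_apply, Polynomial.eval_finsetSum]
    refine Finset.sum_congr rfl fun c _ => ?_
    rw [Polynomial.eval_mul, Polynomial.eval_C]
    rfl
  have hev : ∀ (Q : MvPolynomial (M × M) ℂ) (s : ℂ), (MvPolynomial.aeval G Q).eval s =
      MvPolynomial.eval (fl (ev s g * u)) Q := by
    intro Q s
    rw [aeval_eval_poly, hG]
    congr 1
    exact MvPolynomial.map_id Q
  have hprod : MvPolynomial.aeval G P * MvPolynomial.aeval G y = 0 := by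
    refine Polynomial.funext fun s => ?_
    rw [Polynomial.eval_zero, ← map_mul, hev]
    exact hy P hP _ (hg s u huS)
  rcases mul_eq_zero.1 hprod with h | h
  · rw [← h1, ← hev, h, Polynomial.eval_zero]
  · exfalso
    apply huy
    have h2 := hev y 0
    rw [h, Polynomial.eval_zero, h0, Matrix.one_mul] at h2
    exact h2.symm

/-- **lifting** -/
theorem lift_conn (hK : (K : Set ℂ).Countable) (hι : Function.Injective ι) (hT : IsSubtorsor K T)
    (hS : ∀ x ∈ T, Spl ι x) (hne : T.Nonempty) {w w' : Matrix M' M' ℂ} (hww : w * w' = 1)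
    (hw : Cvd (TC K ι T) w) (hw' : Cvd (TC K ι T) w') :
    ∃ x₁ ∈ T, ∃ x₂ ∈ T, sm ι x₁ = w * sm ι x₂ := by
  classical
  have hT' := TC_sub hι hT hS
  have hKc : Countable K := hK.to_subtype
  obtain ⟨x₀, hx₀⟩ := hne
  -- the map of polynomial rings
  obtain ⟨φ, hφ⟩ : ∃ φ : MvPolynomial (M' × M') ℂ →+* MvPolynomial (M × M) ℂ,
    φ = (MvPolynomial.rename (R := ℂ) (Prod.map ι ι)).toRingHom := ⟨_, rfl⟩
  have hφe : ∀ (P : MvPolynomial (M' × M') ℂ) (x : Matrix M M ℂ), MvPolynomial.eval (fl x) (φ P) =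
      MvPolynomial.eval (fl (sm ι x)) P := by
    intro P x
    rw [hφ]
    show MvPolynomial.eval (fl x) (MvPolynomial.rename (Prod.map ι ι) P) = _
    rw [MvPolynomial.eval_rename]
    rfl
  have hφm : ∀ P : MvPolynomial (M' × M') K, φ (MvPolynomial.map (algebraMap K ℂ) P) =
      MvPolynomial.map (algebraMap K ℂ) (MvPolynomial.rename (Prod.map ι ι) P) := by
    intro P
    rw [hφ]
    exact (MvPolynomial.map_rename _ _ _).symm
  have hcomap : (VI T).comap φ = VI (TC K ι T) := by
    ext P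
    rw [Ideal.mem_comap]
    constructor
    · intro h y hy
      refine TC_van hT (F := fun y => MvPolynomial.eval (fl y) P) (PFe.comp (G := fun y => y) (fun a b => ?_) P) ?_ hy
      · exact ⟨1, Pool.Agent.Y123.GN.PF.coord a b⟩
      · intro x hx
        rw [← hφe]
        exact h x hx
    · intro h x hx
      rw [hφe]
      exact h _ (sub_TC hι hT hS hx)
  have htop : VI (TC K ι T) ≠ ⊤ := by
    intro h
    have h1 : (1 : MvPolynomial (M' × M') ℂ) ∈ VI (TC K ι T) := by
      rw [h]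
      exact Submodule.mem_top
    have h2 := h1 _ (sub_TC hι hT hS hx₀)
    rw [map_one] at h2
    exact one_ne_zero h2
  obtain ⟨q, hq⟩ := Ideal.nonempty_minimalPrimes htop
  have hqp : q.IsPrime := hq.1.1
  obtain ⟨p, hp, hpq⟩ := Ideal.exists_minimalPrimes_comap_eq φ q (by rw [hcomap]; exact hq)
  have hpp : p.IsPrime := hp.1.1
  obtain ⟨y, hy1, hy2⟩ := exists_sep (VI_rad _) hq
  have hSu : ∀ x, x ∈ TC K ι T ↔ IsUnit x ∧ ∀ P ∈ VI (TC K ι T), MvPolynomial.eval (fl x) P = 0 := by
    intro x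
    constructor
    · intro h
      exact ⟨h.1, fun P hP => hP x h⟩
    · intro h
      refine ⟨h.1, fun P h1 h2 => h.2 P ?_⟩
      intro z hz
      exact hz.2 P h1 h2
  -- the generic point of the component upstairs
  obtain ⟨x, hxT, hx1, hx2⟩ : ∃ x ∈ T, (∀ f ∈ p, MvPolynomial.eval (fl x) f = 0) ∧
      ∀ P : MvPolynomial (M × M) K, MvPolynomial.map (algebraMap K ℂ) P ∉ p →
        MvPolynomial.eval (fl x) (MvPolynomial.map (algebraMap K ℂ) P) ≠ 0 := by
    have hc : Countable (MvPolynomial (M × M) K) := mvp_countable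
    obtain ⟨z, hz1, hz2⟩ := exists_point p
      (fun o : Option {P : MvPolynomial (M × M) K // MvPolynomial.map (algebraMap K ℂ) P ∉ p} =>
        o.elim (dt M) fun P => MvPolynomial.map (algebraMap K ℂ) P.1) (by
          rintro (_ | P)
          · exact dt_notMem hT hp
          · exact P.2)
    have hfl : fl (um z) = z := fl_um z
    refine ⟨um z, ?_, by rw [hfl]; exact hz1, fun P hP => by rw [hfl]; exact hz2 (some ⟨P, hP⟩)⟩
    obtain ⟨I, hI1, hI2⟩ := hT.algebraic
    rw [hI2]
    refine ⟨?_, fun f hf => ?_⟩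
    · rw [Matrix.isUnit_iff_isUnit_det, isUnit_iff_ne_zero, ← eval_dt, hfl]
      exact hz2 none
    · exact hz1 f (hp.1.2 fun x hx => ((hI2 x).1 hx).2 f hf)
  have hkx : ∀ P : MvPolynomial (M' × M') K, MvPolynomial.aeval (fl (sm ι x)) P = 0 ↔
      MvPolynomial.map (algebraMap K ℂ) P ∈ q := by
    intro P
    rw [← hpq, Ideal.mem_comap, MvPolynomial.aeval_def, ← MvPolynomial.eval_map, ← hφe, hφm]
    constructor
    · intro h
      by_contra hcon
      exact hx2 _ hcon h
    · intro h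
      exact hx1 _ h
  -- the generic point of the component downstairs
  obtain ⟨u, hu0, hu1, hu2, hu3, hu4⟩ : ∃ u : Matrix M' M' ℂ, IsUnit u ∧ (∀ f ∈ q, MvPolynomial.eval (fl u) f = 0) ∧
      MvPolynomial.eval (fl u) y ≠ 0 ∧ (∀ P : MvPolynomial (M' × M') K, MvPolynomial.map (algebraMap K ℂ) P ∉ q →
        MvPolynomial.eval (fl u) (MvPolynomial.map (algebraMap K ℂ) P) ≠ 0) ∧
      ∀ P : MvPolynomial (M' × M') K, cp (ml w) (MvPolynomial.map (algebraMap K ℂ) P) ∉ q →
        MvPolynomial.eval (fl u) (cp (ml w) (MvPolynomial.map (algebraMap K ℂ) P)) ≠ 0 := by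
    have hc : Countable (MvPolynomial (M' × M') K) := mvp_countable
    obtain ⟨z, hz1, hz2⟩ := exists_point q
      (fun o : (Unit ⊕ Unit) ⊕ ({P : MvPolynomial (M' × M') K // MvPolynomial.map (algebraMap K ℂ) P ∉ q} ⊕
        {P : MvPolynomial (M' × M') K // cp (ml w) (MvPolynomial.map (algebraMap K ℂ) P) ∉ q}) =>
        Sum.elim (Sum.elim (fun _ => dt M') fun _ => y) (Sum.elim (fun P => MvPolynomial.map (algebraMap K ℂ) P.1)
          fun P => cp (ml w) (MvPolynomial.map (algebraMap K ℂ) P.1)) o) (by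
          rintro ((_ | _) | (P | P))
          · exact dt_notMem hT' hq
          · exact hy1
          · exact P.2
          · exact P.2)
    have hfl : fl (um z) = z := fl_um z
    refine ⟨um z, ?_, by rw [hfl]; exact hz1, by rw [hfl]; exact hz2 (Sum.inl (Sum.inr ())),
      fun P hP => by rw [hfl]; exact hz2 (Sum.inr (Sum.inl ⟨P, hP⟩)),
      fun P hP => by rw [hfl]; exact hz2 (Sum.inr (Sum.inr ⟨P, hP⟩))⟩
    rw [Matrix.isUnit_iff_isUnit_det, isUnit_iff_ne_zero, ← eval_dt, hfl]
    exact hz2 (Sum.inl (Sum.inl ()))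
  have hku : ∀ P : MvPolynomial (M' × M') K, MvPolynomial.aeval (fl u) P = 0 ↔
      MvPolynomial.map (algebraMap K ℂ) P ∈ q := by
    intro P
    rw [MvPolynomial.aeval_def, ← MvPolynomial.eval_map]
    constructor
    · intro h
      by_contra hcon
      exact hu3 _ hcon h
    · intro h
      exact hu1 _ h
  have hkw : ∀ P : MvPolynomial (M' × M') K, MvPolynomial.aeval (fl (w * u)) P = 0 ↔
      MvPolynomial.map (algebraMap K ℂ) P ∈ q := by
    intro P
    rw [MvPolynomial.aeval_def, ← MvPolynomial.eval_map]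
    constructor
    · intro h
      by_contra hcon
      have h1 : cp (ml w) (MvPolynomial.map (algebraMap K ℂ) P) ∈ q := by
        by_contra hcon2
        apply hu4 P hcon2
        rw [eval_cp, ml_fl]
        exact h
      obtain ⟨z, hz1, hz2⟩ := exists_point q
        (fun o : Option (Option Unit) => o.elim (dt M') fun o' => o'.elim y fun _ => MvPolynomial.map (algebraMap K ℂ) P)
        (by
          rintro (_ | _ | _)
          · exact dt_notMem hT' hq
          · exact hy1
          · exact hcon)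
      have hfl : fl (um z) = z := fl_um z
      have hzu : IsUnit (um z) := by
        rw [Matrix.isUnit_iff_isUnit_det, isUnit_iff_ne_zero, ← eval_dt, hfl]
        exact hz2 none
      have h2 := comp_pres hSu hq hy2 hw' hzu (by rw [hfl]; exact hz1) (by rw [hfl]; exact hz2 (some none)) _ h1
      rw [eval_cp, ml_fl, ← Matrix.mul_assoc, hww, Matrix.one_mul, hfl] at h2
      exact hz2 (some (some ())) h2
    · intro h
      exact comp_pres hSu hq hy2 hw hu0 hu1 hu2 _ h
  obtain ⟨σ₁, hσ₁, hσ₁'⟩ := exists_conj hK (fun P => (hkx P).trans (hkw P).symm)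
  obtain ⟨σ₂, hσ₂, hσ₂'⟩ := exists_conj hK (fun P => (hkx P).trans (hku P).symm)
  refine ⟨x.map σ₁, aut_mem hT hσ₁ hxT, x.map σ₂, aut_mem hT hσ₂ hxT, ?_⟩
  have h1 : sm ι (x.map σ₁) = w * u := by
    ext a b
    exact hσ₁' (a, b)
  have h2 : sm ι (x.map σ₂) = u := by
    ext a b
    exact hσ₂' (a, b)
  rw [h1, h2]

end Pool.Agent.NH25.GR
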