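import Pool.Agent.NH25.GR.Gen
import Pool.Agent.Y123.GN.E8

/-!
# The lemma of Goursat and Ribet for subtorsors
-/

set_option autoImplicit false
set_option linter.unusedSectionVars false

open Matrix
open scoped commutatorElement

namespace Pool.Agent.NH25.GR

open Pool.Agent.TH127.PT Pool.Agent.Y123.ST Pool.Agent.Y123.GN

/-- the elements of the commutator group are on polynomial curves in this group -/
theorem comm_curve {M : Type} [Fintype M] [DecidableEq M] {𝒢 : Subgroup (Matrix M M ℂ)ˣ} {u : (Matrix M M ℂ)ˣ}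
    (hu : u ∈ ⁅Ug 𝒢, Ug 𝒢⁆) : ∃ g g' : Matrix M M (Polynomial ℂ), g * g' = 1 ∧ ev 0 g = 1 ∧ ev 1 g = u ∧
      ∀ s, ∃ v ∈ ⁅Ug 𝒢, Ug 𝒢⁆, (v : Matrix M M ℂ) = ev s g := by
  have ev1 : ∀ s : ℂ, ev s (1 : Matrix M M (Polynomial ℂ)) = 1 := by
    intro s
    ext a b
    show Polynomial.eval s ((1 : Matrix M M (Polynomial ℂ)) a b) = _
    rw [Matrix.one_apply, Matrix.one_apply]
    split_ifs
    · exact Polynomial.eval_one
    · exact Polynomial.eval_zero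
  have hinv : ∀ (g g' : Matrix M M (Polynomial ℂ)), g * g' = 1 → ∀ (s : ℂ) (v : (Matrix M M ℂ)ˣ), (v : Matrix M M ℂ) = ev s g →
      ((v⁻¹ : (Matrix M M ℂ)ˣ) : Matrix M M ℂ) = ev s g' := by
    intro g g' h s v hv
    have h1 : (v : Matrix M M ℂ) * ev s g' = 1 := by rw [hv, ← ev_mul, h, ev1]
    calc ((v⁻¹ : (Matrix M M ℂ)ˣ) : Matrix M M ℂ) = (v⁻¹ : (Matrix M M ℂ)ˣ) * ((v : Matrix M M ℂ) * ev s g') := by
          rw [h1, Matrix.mul_one]
      _ = ev s g' := by rw [← Matrix.mul_assoc, Units.inv_mul, Matrix.one_mul]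
  rw [Subgroup.commutator_def] at hu
  induction hu using Subgroup.closure_induction with
  | mem u hu =>
    obtain ⟨a, ha, b, hb, rfl⟩ := hu
    obtain ⟨g, g', h1, h2, h3, h4⟩ := Ug_curve ha
    obtain ⟨f, f', k1, k2, k3, k4⟩ := Ug_curve hb
    have h1' : g' * g = 1 := mul_eq_one_comm.1 h1
    have k1' : f' * f = 1 := mul_eq_one_comm.1 k1
    have h2' : ev 0 g' = 1 := by
      have := hinv g g' h1 0 1 (by rw [h2, Units.val_one])
      rw [inv_one, Units.val_one] at this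
      exact this.symm
    have k2' : ev 0 f' = 1 := by
      have := hinv f f' k1 0 1 (by rw [k2, Units.val_one])
      rw [inv_one, Units.val_one] at this
      exact this.symm
    refine ⟨g * f * g' * f', f * g * f' * g', ?_, ?_, ?_, ?_⟩
    · calc g * f * g' * f' * (f * g * f' * g') = g * f * g' * (f' * f) * g * f' * g' := by simp only [Matrix.mul_assoc]
        _ = g * f * (g' * g) * f' * g' := by rw [k1', Matrix.mul_one]; simp only [Matrix.mul_assoc]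
        _ = g * (f * f') * g' := by rw [h1', Matrix.mul_one]; simp only [Matrix.mul_assoc]
        _ = 1 := by rw [k1, Matrix.mul_one, h1]
    · rw [ev_mul, ev_mul, ev_mul, h2, k2, h2', k2']
      simp
    · rw [ev_mul, ev_mul, ev_mul, h3, k3, commutatorElement_def, Units.val_mul, Units.val_mul, Units.val_mul,
        hinv g g' h1 1 a h3.symm, hinv f f' k1 1 b k3.symm]
    · intro s
      obtain ⟨v, hv, hv'⟩ := h4 s
      obtain ⟨w, hw, hw'⟩ := k4 s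
      refine ⟨⁅v, w⁆, Subgroup.commutator_mem_commutator hv hw, ?_⟩
      rw [ev_mul, ev_mul, ev_mul, commutatorElement_def, Units.val_mul, Units.val_mul, Units.val_mul,
        hinv g g' h1 s v hv', hinv f f' k1 s w hw', hv', hw']
  | one =>
    refine ⟨1, 1, Matrix.one_mul 1, ev1 0, ?_, fun s => ⟨1, Subgroup.one_mem _, ?_⟩⟩
    · rw [ev1, Units.val_one]
    · rw [ev1, Units.val_one]
  | mul u v _ _ ihu ihv =>
    obtain ⟨g, g', h1, h2, h3, h4⟩ := ihu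
    obtain ⟨f, f', k1, k2, k3, k4⟩ := ihv
    refine ⟨g * f, f' * g', ?_, ?_, ?_, ?_⟩
    · calc g * f * (f' * g') = g * (f * f') * g' := by simp only [Matrix.mul_assoc]
        _ = 1 := by rw [k1, Matrix.mul_one, h1]
    · rw [ev_mul, h2, k2, Matrix.one_mul]
    · rw [ev_mul, h3, k3, Units.val_mul]
    · intro s
      obtain ⟨a, ha, ha'⟩ := h4 s
      obtain ⟨b, hb, hb'⟩ := k4 s
      exact ⟨a * b, Subgroup.mul_mem _ ha hb, by rw [ev_mul, Units.val_mul, ha', hb']⟩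
  | inv u _ ihu =>
    obtain ⟨g, g', h1, h2, h3, h4⟩ := ihu
    have h1' : g' * g = 1 := mul_eq_one_comm.1 h1
    refine ⟨g', g, h1', ?_, (hinv g g' h1 1 u h3.symm).symm, fun s => ?_⟩
    · have := hinv g g' h1 0 1 (by rw [h2, Units.val_one])
      rw [inv_one, Units.val_one] at this
      exact this.symm
    · obtain ⟨v, hv, hv'⟩ := h4 s
      exact ⟨v⁻¹, Subgroup.inv_mem _ hv, hinv g g' h1 s v hv'⟩

variable {B₀ : Type} [Fintype B₀] [DecidableEq B₀] {K : Subfield ℂ} {k : ℕ} {n : Fin k → ℕ}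

/-- block matrices of polynomials -/
noncomputable def EGp (B₀ : Type) [Fintype B₀] [DecidableEq B₀] (γ : ∀ i, Matrix (Fin (n i)) (Fin (n i)) (Polynomial ℂ)) :
    Matrix (IG B₀ n) (IG B₀ n) (Polynomial ℂ) := fromBlocks 1 0 0 (blockDiagonal' γ)

theorem ev_EGp (γ : ∀ i, Matrix (Fin (n i)) (Fin (n i)) (Polynomial ℂ)) (s : ℂ) :
    ev s (EGp B₀ γ) = EG 1 fun i => ev s (γ i) := by
  unfold EGp EG ev
  rw [Matrix.fromBlocks_map]
  congr 1
  · ext a b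
    rw [Matrix.map_apply, Matrix.one_apply, Matrix.one_apply]
    split_ifs
    · exact Polynomial.eval_one
    · exact Polynomial.eval_zero
  · ext a b
    exact Polynomial.eval_zero
  · ext a b
    exact Polynomial.eval_zero
  · rw [Matrix.blockDiagonal'_map _ _ Polynomial.eval_zero]

theorem ev_one {M : Type} [Fintype M] [DecidableEq M] (s : ℂ) : ev s (1 : Matrix M M (Polynomial ℂ)) = 1 := by
  ext a b
  show Polynomial.eval s ((1 : Matrix M M (Polynomial ℂ)) a b) = _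
  rw [Matrix.one_apply, Matrix.one_apply]
  split_ifs
  · exact Polynomial.eval_one
  · exact Polynomial.eval_zero

/-- the stability property at a point -/
def St (K : Subfield ℂ) (𝒢 : ∀ i, Subgroup (Matrix (Fin (n i)) (Fin (n i)) ℂ)ˣ) (c : Matrix (IG B₀ n) (IG B₀ n) ℂ) :
    Prop :=
  ∀ T : Set (Matrix (IG B₀ n) (IG B₀ n) ℂ), IsSubtorsor K T → c ∈ T → ∀ g : ∀ i, (Matrix (Fin (n i)) (Fin (n i)) ℂ)ˣ,
    (∀ i, g i ∈ ⁅Ug (𝒢 i), Ug (𝒢 i)⁆) → ∀ x ∈ T, EG 1 (fun i => (g i : Matrix (Fin (n i)) (Fin (n i)) ℂ)) * x ∈ T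

theorem Cvd_of {𝒢 : ∀ i, Subgroup (Matrix (Fin (n i)) (Fin (n i)) ℂ)ˣ} {S : Set (Matrix (IG B₀ n) (IG B₀ n) ℂ)}
    (hS : ∀ g : ∀ i, (Matrix (Fin (n i)) (Fin (n i)) ℂ)ˣ, (∀ i, g i ∈ ⁅Ug (𝒢 i), Ug (𝒢 i)⁆) →
      ∀ x ∈ S, EG 1 (fun i => (g i : Matrix (Fin (n i)) (Fin (n i)) ℂ)) * x ∈ S)
    {g : ∀ i, (Matrix (Fin (n i)) (Fin (n i)) ℂ)ˣ} (hg : ∀ i, g i ∈ ⁅Ug (𝒢 i), Ug (𝒢 i)⁆) :
    Cvd S (EG 1 fun i => (g i : Matrix (Fin (n i)) (Fin (n i)) ℂ)) := by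
  choose γ γ' h1 h2 h3 h4 using fun i => comm_curve (hg i)
  refine ⟨EGp B₀ γ, ?_, ?_, fun s y hy => ?_⟩
  · rw [ev_EGp]
    have : (fun i => ev 0 (γ i)) = (1 : ∀ i, Matrix (Fin (n i)) (Fin (n i)) ℂ) := funext h2
    rw [this, EG_one]
  · rw [ev_EGp]
    congr 1
    exact funext h3
  · choose v hv hv' using fun i => h4 i s
    rw [ev_EGp]
    have : (fun i => ev s (γ i)) = fun i => (v i : Matrix (Fin (n i)) (Fin (n i)) ℂ) := funext fun i => (hv' i).symm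
    rw [this]
    exact hS v hv y hy

variable {l : ℕ}

/-- the embedding of the indices of some of the blocks -/
def jx (B₀ : Type) (n : Fin k → ℕ) (f : Fin l → Fin k) : IG B₀ (fun i => n (f i)) → IG B₀ n :=
  Sum.map id fun p => ⟨f p.1, p.2⟩

theorem jx_inj {f : Fin l → Fin k} (hf : Function.Injective f) : Function.Injective (jx B₀ n f) := by
  refine Sum.map_injective.2 ⟨Function.injective_id, ?_⟩
  rintro ⟨i, a⟩ ⟨j, b⟩ h
  have h1 : f i = f j := congrArg Sigma.fst h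
  have h2 := hf h1
  subst h2
  have h3 : a = b := by
    have := (Sigma.mk.inj_iff.1 h).2
    exact eq_of_heq this
  rw [h3]

theorem sm_EG {f : Fin l → Fin k} (hf : Function.Injective f) (x : Matrix B₀ B₀ ℂ)
    (X : ∀ i, Matrix (Fin (n i)) (Fin (n i)) ℂ) : sm (jx B₀ n f) (EG x X) = EG x fun i => X (f i) := by
  ext a b
  rcases a with a | ⟨i, a⟩ <;> rcases b with b | ⟨j, b⟩
  · rfl
  · rfl
  · rfl
  · show blockDiagonal' X ⟨f i, a⟩ ⟨f j, b⟩ = blockDiagonal' (fun i => X (f i)) ⟨i, a⟩ ⟨j, b⟩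
    by_cases hij : i = j
    · subst hij
      rw [blockDiagonal'_apply_eq, blockDiagonal'_apply_eq]
    · rw [blockDiagonal'_apply_ne _ _ _ (fun h => hij (hf h)), blockDiagonal'_apply_ne _ _ _ hij]

theorem Spl_EG {f : Fin l → Fin k} (x : Matrix B₀ B₀ ℂ) (X : ∀ i, Matrix (Fin (n i)) (Fin (n i)) ℂ) :
    Spl (jx B₀ n f) (EG x X) := by
  rintro (a | ⟨i, a⟩) (b | ⟨j, b⟩) hb
  · exact absurd ⟨Sum.inl b, rfl⟩ hb
  · rfl
  · rfl
  · show blockDiagonal' X ⟨f i, a⟩ ⟨j, b⟩ = 0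
    refine blockDiagonal'_apply_ne _ _ _ fun h => hb ?_
    subst h
    exact ⟨Sum.inr ⟨i, b⟩, rfl⟩

/-- lifting of the symmetries of some of the blocks -/
theorem lift_f (hK : (K : Set ℂ).Countable) {T : Set (Matrix (IG B₀ n) (IG B₀ n) ℂ)} (hT : IsSubtorsor K T)
    (hTB : ∀ y ∈ T, ∃ x X, y = EG x X) {C₀ : Matrix B₀ B₀ ℂ} {Z : ∀ i, Matrix (Fin (n i)) (Fin (n i)) ℂ}
    (hc : EG C₀ Z ∈ T) {𝒢 : ∀ i, Subgroup (Matrix (Fin (n i)) (Fin (n i)) ℂ)ˣ} {f : Fin l → Fin k}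
    (hf : Function.Injective f) (hst : St K (fun i => 𝒢 (f i)) (EG C₀ fun i => Z (f i)))
    (g : ∀ i, (Matrix (Fin (n (f i))) (Fin (n (f i))) ℂ)ˣ) (hg : ∀ i, g i ∈ ⁅Ug (𝒢 (f i)), Ug (𝒢 (f i))⁆) :
    ∃ γ : ∀ i, (Matrix (Fin (n i)) (Fin (n i)) ℂ)ˣ, EGu B₀ n γ ∈ Sbl T ∧ ∀ i, γ (f i) = g i := by
  classical
  have hι := jx_inj (B₀ := B₀) (n := n) hf
  have hS : ∀ x ∈ T, Spl (jx B₀ n f) x := by
    intro y hy
    obtain ⟨x, X, rfl⟩ := hTB y hy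
    exact Spl_EG x X
  have hTC := TC_sub hι hT hS
  have hc' : (EG C₀ fun i => Z (f i)) ∈ TC K (jx B₀ n f) T := by
    rw [← sm_EG hf]
    exact sub_TC hι hT hS hc
  have hstab := hst _ hTC hc'
  have hg' : ∀ i, (g i)⁻¹ ∈ ⁅Ug (𝒢 (f i)), Ug (𝒢 (f i))⁆ := fun i => Subgroup.inv_mem _ (hg i)
  obtain ⟨x₁, hx₁, x₂, hx₂, hx⟩ := lift_conn hK hι hT hS ⟨_, hc⟩
    (w := EG 1 fun i => (g i : Matrix (Fin (n (f i))) (Fin (n (f i))) ℂ))
    (w' := EG 1 fun i => (((g i)⁻¹ : (Matrix (Fin (n (f i))) (Fin (n (f i))) ℂ)ˣ) : Matrix (Fin (n (f i))) (Fin (n (f i))) ℂ)) (by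
      rw [EG_mul, Matrix.one_mul]
      have h1 : (fun i => (g i : Matrix (Fin (n (f i))) (Fin (n (f i))) ℂ) *
          ((g i)⁻¹ : (Matrix (Fin (n (f i))) (Fin (n (f i))) ℂ)ˣ)) = 1 := by
        funext i
        exact (g i).mul_inv
      rw [h1, EG_one])
    (Cvd_of hstab hg) (Cvd_of hstab hg')
  obtain ⟨y₁, X₁, rfl⟩ := hTB x₁ hx₁
  obtain ⟨y₂, X₂, rfl⟩ := hTB x₂ hx₂
  rw [sm_EG hf, sm_EG hf, EG_mul, Matrix.one_mul] at hx
  obtain ⟨h1, h2⟩ := EG_inj hx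
  have u₁ := hT.isUnit _ hx₁
  have u₂ := hT.isUnit _ hx₂
  have v₁ := fun i => EG_block_unit u₁ i
  have v₂ := fun i => EG_block_unit u₂ i
  refine ⟨fun i => (v₁ i).unit * (v₂ i).unit⁻¹, ?_, fun i => ?_⟩
  · intro z hz
    have h3 := hT.torsor _ hx₁ _ hx₂ z hz
    have h4 : EG y₁ X₁ * (EG y₂ X₂)⁻¹ = (EGu B₀ n fun i => (v₁ i).unit * (v₂ i).unit⁻¹ :
        (Matrix (IG B₀ n) (IG B₀ n) ℂ)ˣ) := by
      have h5 : EG y₁ X₁ = (EGu B₀ n fun i => (v₁ i).unit * (v₂ i).unit⁻¹ : (Matrix (IG B₀ n) (IG B₀ n) ℂ)ˣ) *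
          EG y₂ X₂ := by
        rw [EGu_val, EG_mul, Matrix.one_mul, h1]
        congr 1
        funext i
        show X₁ i = ((v₁ i).unit : Matrix (Fin (n i)) (Fin (n i)) ℂ) * (((v₂ i).unit⁻¹ :
          (Matrix (Fin (n i)) (Fin (n i)) ℂ)ˣ) : Matrix (Fin (n i)) (Fin (n i)) ℂ) * X₂ i
        have h6 : (((v₂ i).unit⁻¹ : (Matrix (Fin (n i)) (Fin (n i)) ℂ)ˣ) : Matrix (Fin (n i)) (Fin (n i)) ℂ) * X₂ i = 1 :=
          (v₂ i).unit.inv_mul
        rw [Matrix.mul_assoc, h6, Matrix.mul_one]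
        rfl
      rw [h5, Matrix.mul_assoc, Matrix.mul_nonsing_inv _ ((Matrix.isUnit_iff_isUnit_det _).1 u₂), Matrix.mul_one]
    rw [h4] at h3
    exact h3
  · refine Units.ext ?_
    have h3 : X₁ (f i) = (g i : Matrix (Fin (n (f i))) (Fin (n (f i))) ℂ) * X₂ (f i) := congrFun h2 i
    show ((v₁ (f i)).unit : Matrix (Fin (n (f i))) (Fin (n (f i))) ℂ) * (((v₂ (f i)).unit⁻¹ :
      (Matrix (Fin (n (f i))) (Fin (n (f i))) ℂ)ˣ) : Matrix (Fin (n (f i))) (Fin (n (f i))) ℂ) = g i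
    have h4 : ((v₁ (f i)).unit : Matrix (Fin (n (f i))) (Fin (n (f i))) ℂ) = X₁ (f i) := rfl
    have h6 : X₂ (f i) * (((v₂ (f i)).unit⁻¹ : (Matrix (Fin (n (f i))) (Fin (n (f i))) ℂ)ˣ) :
      Matrix (Fin (n (f i))) (Fin (n (f i))) ℂ) = 1 := (v₂ (f i)).unit.mul_inv
    rw [h4, h3, Matrix.mul_assoc, h6, Matrix.mul_one]

/-- the elements which lift to symmetries of `T` which are trivial in the blocks in `J` -/
def NJ {T : Set (Matrix (IG B₀ n) (IG B₀ n) ℂ)} (hT : IsSubtorsor K T) (J : Finset (Fin k)) (i : Fin k)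
    : Subgroup (Matrix (Fin (n i)) (Fin (n i)) ℂ)ˣ where
  carrier := {a | ∃ γ : ∀ i, (Matrix (Fin (n i)) (Fin (n i)) ℂ)ˣ, EGu B₀ n γ ∈ Sbl T ∧ γ i = a ∧ ∀ j ∈ J, γ j = 1}
  mul_mem' := by
    rintro a b ⟨γ, h1, h2, h3⟩ ⟨δ, k1, k2, k3⟩
    refine ⟨γ * δ, ?_, by rw [Pi.mul_apply, h2, k2], fun j hj => by rw [Pi.mul_apply, h3 j hj, k3 j hj, mul_one]⟩
    rw [map_mul]
    exact Sbl_mul h1 k1
  one_mem' := by
    refine ⟨1, ?_, rfl, fun j _ => rfl⟩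
    rw [map_one]
    intro x hx
    rw [Units.val_one, Matrix.one_mul]
    exact hx
  inv_mem' := by
    rintro a ⟨γ, h1, h2, h3⟩
    refine ⟨γ⁻¹, ?_, by rw [Pi.inv_apply, h2], fun j hj => by rw [Pi.inv_apply, h3 j hj, inv_one]⟩
    rw [map_inv]
    exact Sbl_inv hT h1

theorem NJ_comm {T : Set (Matrix (IG B₀ n) (IG B₀ n) ℂ)} (hT : IsSubtorsor K T) (J J' : Finset (Fin k)) (i : Fin k) :
    ⁅NJ hT J i, NJ hT J' i⁆ ≤ NJ hT (J ∪ J') i := by
  rw [Subgroup.commutator_le]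
  rintro a ⟨γ, h1, h2, h3⟩ b ⟨δ, k1, k2, k3⟩
  refine ⟨⁅γ, δ⁆, ?_, ?_, fun j hj => ?_⟩
  · rw [commutatorElement_def, map_mul, map_mul, map_mul, map_inv, map_inv]
    exact Sbl_mul (Sbl_mul (Sbl_mul h1 k1) (Sbl_inv hT h1)) (Sbl_inv hT k1)
  · rw [commutatorElement_def, commutatorElement_def, ← h2, ← k2]
    rfl
  · rw [commutatorElement_def]
    show γ j * δ j * (γ j)⁻¹ * (δ j)⁻¹ = 1
    rcases Finset.mem_union.1 hj with hj | hj
    · rw [h3 j hj]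
      simp
    · rw [k3 j hj]
      simp

/-- **Goursat-Ribet** -/
theorem gr_block (hK : (K : Set ℂ).Countable) {T : Set (Matrix (IG B₀ n) (IG B₀ n) ℂ)} (hT : IsSubtorsor K T)
    (hTB : ∀ y ∈ T, ∃ x X, y = EG x X) {C₀ : Matrix B₀ B₀ ℂ} {Z : ∀ i, Matrix (Fin (n i)) (Fin (n i)) ℂ}
    (hc : EG C₀ Z ∈ T) {𝒢 : ∀ i, Subgroup (Matrix (Fin (n i)) (Fin (n i)) ℂ)ˣ}
    (h1 : ∀ f : Fin 1 → Fin k, Function.Injective f → St K (fun i => 𝒢 (f i)) (EG C₀ fun i => Z (f i)))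
    (h2 : ∀ f : Fin 2 → Fin k, Function.Injective f → St K (fun i => 𝒢 (f i)) (EG C₀ fun i => Z (f i)))
    {V : ∀ i, Subgroup (Matrix (Fin (n i)) (Fin (n i)) ℂ)ˣ} (hV : ∀ i, V i ≤ ⁅Ug (𝒢 i), Ug (𝒢 i)⁆)
    (hperf : ∀ i, V i ≤ ⁅V i, V i⁆) {g : ∀ i, (Matrix (Fin (n i)) (Fin (n i)) ℂ)ˣ} (hg : ∀ i, g i ∈ V i) :
    EGu B₀ n g ∈ Sbl T := by
  classical
  have hbase : ∀ i, V i ≤ NJ hT ∅ i := by
    intro i a ha
    obtain ⟨γ, hγ1, hγ2⟩ := lift_f hK hT hTB hc (f := fun _ : Fin 1 => i) (fun a b _ => Subsingleton.elim a b)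
      (h1 _ fun a b _ => Subsingleton.elim a b) (fun _ => a) fun _ => hV i ha
    exact ⟨γ, hγ1, hγ2 0, fun j hj => absurd hj (Finset.notMem_empty j)⟩
  have hpair : ∀ i j, i ≠ j → V i ≤ NJ hT {j} i := by
    intro i j hij a ha
    have hinj : Function.Injective ![i, j] := by
      intro x y hxy
      fin_cases x <;> fin_cases y
      · rfl
      · exact absurd hxy hij
      · exact absurd hxy (Ne.symm hij)
      · rfl
    obtain ⟨g', hg'⟩ : ∃ g' : ∀ x : Fin 2, (Matrix (Fin (n (![i, j] x))) (Fin (n (![i, j] x))) ℂ)ˣ, g' 0 = a ∧ g' 1 = 1 :=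
      ⟨Fin.cons a (Fin.cons 1 finZeroElim), rfl, rfl⟩
    obtain ⟨γ, hγ1, hγ2⟩ := lift_f hK hT hTB hc (f := ![i, j]) hinj (h2 _ hinj) g' (by
      intro x
      fin_cases x
      · show g' 0 ∈ _
        rw [hg'.1]
        exact hV i ha
      · show g' 1 ∈ _
        rw [hg'.2]
        exact Subgroup.one_mem _)
    refine ⟨γ, hγ1, (hγ2 0).trans hg'.1, fun j' hj' => ?_⟩
    rw [Finset.mem_singleton] at hj'
    subst hj'
    exact (hγ2 1).trans hg'.2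
  have hall : ∀ (i : Fin k) (J : Finset (Fin k)), i ∉ J → V i ≤ NJ hT J i := by
    intro i J
    induction J using Finset.induction_on with
    | empty => exact fun _ => hbase i
    | insert j J hj ih =>
      intro hi
      rw [Finset.mem_insert, not_or] at hi
      have h5 := (hperf i).trans ((Subgroup.commutator_mono (hpair i j hi.1) (ih hi.2)).trans (NJ_comm hT {j} J i))
      rwa [← Finset.insert_eq] at h5
  refine all_blocksG fun i => ?_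
  obtain ⟨γ, hγ1, hγ2, hγ3⟩ := hall i (Finset.univ.erase i) (Finset.notMem_erase i _) (hg i)
  have h6 : γ = Pi.mulSingle i (g i) := by
    funext j
    by_cases hj : j = i
    · subst hj
      rw [Pi.mulSingle_eq_same, hγ2]
    · rw [Pi.mulSingle_eq_of_ne hj, hγ3 j (Finset.mem_erase.2 ⟨hj, Finset.mem_univ j⟩)]
  show EGu B₀ n (Pi.mulSingle i (g i)) ∈ Sbl T
  rw [← h6]
  exact hγ1

end Pool.Agent.NH25.GR
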