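import Pool.Agent.NH25.GR.Gou

/-!
# Reduction to block matrices, and projections
-/

set_option autoImplicit false
set_option linter.unusedSectionVars false

open Matrix
open scoped commutatorElement

namespace Pool.Agent.NH25.GR

open Pool.Agent.TH127.PT Pool.Agent.Y123.ST Pool.Agent.Y123.GN

variable {B₀ : Type} [Fintype B₀] [DecidableEq B₀] {K : Subfield ℂ} {k : ℕ} {n : Fin k → ℕ}

/-- the invertible block matrices -/
def BDs (B₀ : Type) [Fintype B₀] [DecidableEq B₀] (n : Fin k → ℕ) : Set (Matrix (IG B₀ n) (IG B₀ n) ℂ) :=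
  {y | IsUnit y ∧ ∃ x X, y = EG x X}

/-- the block of an index -/
def lbl : IG B₀ n → Option (Fin k)
  | Sum.inl _ => none
  | Sum.inr p => some p.1

theorem eq_EG {y : Matrix (IG B₀ n) (IG B₀ n) ℂ} (h : ∀ a b, lbl a ≠ lbl b → y a b = 0) :
    y = EG (Matrix.of fun a b => y (Sum.inl a) (Sum.inl b))
      fun i => Matrix.of fun a b => y (Sum.inr ⟨i, a⟩) (Sum.inr ⟨i, b⟩) := by
  ext a b
  rcases a with a | ⟨i, a⟩ <;> rcases b with b | ⟨j, b⟩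
  · rfl
  · exact h _ _ (by simp [lbl])
  · exact h _ _ (by simp [lbl])
  · show _ = blockDiagonal' (fun i => Matrix.of fun a b => y (Sum.inr ⟨i, a⟩) (Sum.inr ⟨i, b⟩)) ⟨i, a⟩ ⟨j, b⟩
    by_cases hij : i = j
    · subst hij
      rw [blockDiagonal'_apply_eq]
      rfl
    · rw [blockDiagonal'_apply_ne _ _ _ hij]
      exact h _ _ (by simpa [lbl] using hij)

theorem EG_zero_of {x : Matrix B₀ B₀ ℂ} {X : ∀ i, Matrix (Fin (n i)) (Fin (n i)) ℂ} {a b : IG B₀ n}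
    (h : lbl a ≠ lbl b) : EG x X a b = 0 := by
  rcases a with a | ⟨i, a⟩ <;> rcases b with b | ⟨j, b⟩
  · exact absurd rfl h
  · rfl
  · rfl
  · show blockDiagonal' X ⟨i, a⟩ ⟨j, b⟩ = 0
    refine blockDiagonal'_apply_ne _ _ _ fun hij => h ?_
    subst hij
    rfl

theorem EG_inv {y : Matrix B₀ B₀ ℂ} {Y : ∀ i, Matrix (Fin (n i)) (Fin (n i)) ℂ} (h : IsUnit (EG y Y)) :
    (EG y Y)⁻¹ = EG y⁻¹ fun i => (Y i)⁻¹ := by
  refine Matrix.inv_eq_right_inv ?_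
  rw [EG_mul, Matrix.mul_nonsing_inv _ ((Matrix.isUnit_iff_isUnit_det _).1 (EG_unit h))]
  have h1 : (fun i => Y i * (Y i)⁻¹) = 1 := by
    funext i
    exact Matrix.mul_nonsing_inv _ ((Matrix.isUnit_iff_isUnit_det _).1 (EG_block_unit h i))
  rw [h1, EG_one]

/-- the equations of the block matrices -/
def BDI (B₀ : Type) [Fintype B₀] [DecidableEq B₀] (n : Fin k → ℕ) : Set (MvPolynomial (IG B₀ n × IG B₀ n) ℂ) :=
  {P | ∃ a b, lbl a ≠ lbl b ∧ P = MvPolynomial.X (a, b)}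

theorem BDI_coeff (K : Subfield ℂ) : ∀ P ∈ BDI B₀ n, ∀ m, P.coeff m ∈ K := by
  classical
  rintro _ ⟨a, b, -, rfl⟩ m
  rw [MvPolynomial.coeff_X]
  split_ifs
  · exact K.one_mem
  · exact K.zero_mem

theorem mem_BDs {y : Matrix (IG B₀ n) (IG B₀ n) ℂ} :
    y ∈ BDs B₀ n ↔ IsUnit y ∧ ∀ P ∈ BDI B₀ n, MvPolynomial.eval (fun b => y b.1 b.2) P = 0 := by
  constructor
  · rintro ⟨h1, x, X, rfl⟩
    refine ⟨h1, ?_⟩
    rintro _ ⟨a, b, hab, rfl⟩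
    rw [MvPolynomial.eval_X]
    exact EG_zero_of hab
  · rintro ⟨h1, h2⟩
    refine ⟨h1, _, _, eq_EG fun a b hab => ?_⟩
    have h3 := h2 _ ⟨a, b, hab, rfl⟩
    rwa [MvPolynomial.eval_X] at h3

theorem BDs_sub (K : Subfield ℂ) : IsSubtorsor K (BDs B₀ n) := by
  refine ⟨fun x hx => hx.1, ?_, BDI B₀ n, BDI_coeff K, fun x => mem_BDs⟩
  rintro _ ⟨hx, x, X, rfl⟩ _ ⟨hy, y, Y, rfl⟩ _ ⟨hz, z, Z, rfl⟩
  refine ⟨(hx.mul (Matrix.isUnit_nonsing_inv_iff.2 hy)).mul hz, x * y⁻¹ * z, fun i => X i * (Y i)⁻¹ * Z i, ?_⟩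
  rw [EG_inv hy, EG_mul, EG_mul]

/-- **Goursat-Ribet, all subtorsors** -/
theorem gr_all (hK : (K : Set ℂ).Countable) {C₀ : Matrix B₀ B₀ ℂ} {Z : ∀ i, Matrix (Fin (n i)) (Fin (n i)) ℂ}
    {𝒢 : ∀ i, Subgroup (Matrix (Fin (n i)) (Fin (n i)) ℂ)ˣ}
    (h1 : ∀ f : Fin 1 → Fin k, Function.Injective f → St K (fun i => 𝒢 (f i)) (EG C₀ fun i => Z (f i)))
    (h2 : ∀ f : Fin 2 → Fin k, Function.Injective f → St K (fun i => 𝒢 (f i)) (EG C₀ fun i => Z (f i)))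
    {V : ∀ i, Subgroup (Matrix (Fin (n i)) (Fin (n i)) ℂ)ˣ} (hV : ∀ i, V i ≤ ⁅Ug (𝒢 i), Ug (𝒢 i)⁆)
    (hperf : ∀ i, V i ≤ ⁅V i, V i⁆) {T : Set (Matrix (IG B₀ n) (IG B₀ n) ℂ)} (hT : IsSubtorsor K T)
    (hc : EG C₀ Z ∈ T) {g : ∀ i, (Matrix (Fin (n i)) (Fin (n i)) ℂ)ˣ} (hg : ∀ i, g i ∈ V i) :
    ∀ x ∈ T, EG 1 (fun i => (g i : Matrix (Fin (n i)) (Fin (n i)) ℂ)) * x ∈ T := by
  have hcu := hT.isUnit _ hc
  have hT' := Pool.Agent.Y123.GN.inter_sub hT (BDs_sub (B₀ := B₀) (n := n) K)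
  have hc' : EG C₀ Z ∈ T ∩ BDs B₀ n := ⟨hc, hcu, _, _, rfl⟩
  have h3 := gr_block hK hT' (fun y hy => hy.2.2) hc' h1 h2 hV hperf hg
  intro x hx
  have h4 := (h3 _ hc').1
  have h5 := hT.torsor _ h4 _ hc x hx
  rw [EGu_val, Matrix.mul_assoc, Matrix.mul_assoc, ← Matrix.mul_assoc (EG C₀ Z),
    Matrix.mul_nonsing_inv _ ((Matrix.isUnit_iff_isUnit_det _).1 hcu), Matrix.one_mul] at h5
  exact h5

/-- extension by `1` -/
theorem exists_ext {G : Fin k → Type} [∀ i, Group (G i)] {l : ℕ} {f : Fin l → Fin k} (hf : Function.Injective f)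
    (g : ∀ a, G (f a)) : ∃ γ : ∀ i, G i, (∀ a, γ (f a) = g a) ∧ ∀ i, i ∉ Set.range f → γ i = 1 := by
  classical
  have h : ∀ i, ∃ u : G i, (∀ a (h : f a = i), u = h ▸ g a) ∧ (i ∉ Set.range f → u = 1) := by
    intro i
    by_cases hi : i ∈ Set.range f
    · obtain ⟨a, rfl⟩ := hi
      refine ⟨g a, fun b hb => ?_, fun h => absurd ⟨a, rfl⟩ h⟩
      have := hf hb
      subst this
      rfl
    · exact ⟨1, fun a ha => absurd ⟨a, ha⟩ hi, fun _ => rfl⟩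
  choose γ h1 h2 using h
  exact ⟨γ, fun a => h1 (f a) a rfl, h2⟩

/-- **projections** -/
theorem St_proj {l : ℕ} {f : Fin l → Fin k} (hf : Function.Injective f) {C₀ : Matrix B₀ B₀ ℂ}
    {Z : ∀ i, Matrix (Fin (n i)) (Fin (n i)) ℂ} (hZ : ∀ i, IsUnit (Z i))
    {𝒢 : ∀ i, Subgroup (Matrix (Fin (n i)) (Fin (n i)) ℂ)ˣ} (hst : St K 𝒢 (EG C₀ Z)) :
    St K (fun i => 𝒢 (f i)) (EG C₀ fun i => Z (f i)) := by
  intro T hT hc g hg x hx
  have hcu := hT.isUnit _ hc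
  have hι := jx_inj (B₀ := B₀) (n := n) hf
  have hEu : IsUnit (EG C₀ Z) := EG_isUnit (EG_unit hcu) hZ
  obtain ⟨I, hI1, hI2⟩ := hT.algebraic
  have hT₂ : IsSubtorsor K {y | y ∈ BDs B₀ n ∧ sm (jx B₀ n f) y ∈ T} := by
    refine ⟨fun y hy => hy.1.1, ?_, BDI B₀ n ∪ (MvPolynomial.rename (Prod.map (jx B₀ n f) (jx B₀ n f))) '' I, ?_, ?_⟩
    · rintro x ⟨hx1, hx2⟩ y ⟨hy1, hy2⟩ z ⟨hz1, hz2⟩
      refine ⟨(BDs_sub (B₀ := B₀) (n := n) K).torsor x hx1 y hy1 z hz1, ?_⟩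
      have hsx : Spl (jx B₀ n f) x := by
        obtain ⟨_, a, A, rfl⟩ := hx1
        exact Spl_EG a A
      have hsy : Spl (jx B₀ n f) y := by
        obtain ⟨_, a, A, rfl⟩ := hy1
        exact Spl_EG a A
      rw [sm_tor hι hsx hsy hy1.1]
      exact hT.torsor _ hx2 _ hy2 _ hz2
    · rintro P (hP | ⟨Q, hQ, rfl⟩) m
      · exact BDI_coeff K P hP m
      · by_cases hm : ∃ m', Finsupp.mapDomain (Prod.map (jx B₀ n f) (jx B₀ n f)) m' = m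
        · obtain ⟨m', rfl⟩ := hm
          rw [MvPolynomial.coeff_rename_mapDomain _ (hι.prodMap hι)]
          exact hI1 Q hQ m'
        · rw [MvPolynomial.coeff_rename_eq_zero]
          · exact K.zero_mem
          · intro u hu
            exact absurd ⟨u, hu⟩ hm
    · intro y
      have hren : ∀ Q : MvPolynomial (IG B₀ (fun i => n (f i)) × IG B₀ (fun i => n (f i))) ℂ,
          MvPolynomial.eval (fun b => y b.1 b.2) (MvPolynomial.rename (Prod.map (jx B₀ n f) (jx B₀ n f)) Q) =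
            MvPolynomial.eval (fun b => sm (jx B₀ n f) y b.1 b.2) Q := by
        intro Q
        rw [MvPolynomial.eval_rename]
        rfl
      constructor
      · rintro ⟨h1, h2⟩
        refine ⟨h1.1, ?_⟩
        rintro P (hP | ⟨Q, hQ, rfl⟩)
        · exact (mem_BDs.1 h1).2 P hP
        · rw [hren]
          exact ((hI2 _).1 h2).2 Q hQ
      · rintro ⟨h1, h2⟩
        have h3 : y ∈ BDs B₀ n := mem_BDs.2 ⟨h1, fun P hP => h2 P (Or.inl hP)⟩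
        refine ⟨h3, (hI2 _).2 ⟨?_, fun Q hQ => ?_⟩⟩
        · obtain ⟨_, a, A, rfl⟩ := h3
          exact sm_unit hι (Spl_EG a A) h1
        · have h4 := h2 _ (Or.inr ⟨Q, hQ, rfl⟩)
          rwa [hren] at h4
  obtain ⟨γ, hγ1, hγ2⟩ := exists_ext (G := fun i => (Matrix (Fin (n i)) (Fin (n i)) ℂ)ˣ) hf g
  have hγ : ∀ i, γ i ∈ ⁅Ug (𝒢 i), Ug (𝒢 i)⁆ := by
    intro i
    by_cases hi : i ∈ Set.range f
    · obtain ⟨a, rfl⟩ := hi
      rw [hγ1]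
      exact hg a
    · rw [hγ2 i hi]
      exact Subgroup.one_mem _
  have h5 := hst _ hT₂ ⟨⟨hEu, _, _, rfl⟩, by rw [sm_EG hf]; exact hc⟩ γ hγ _ ⟨⟨hEu, _, _, rfl⟩, by
    rw [sm_EG hf]
    exact hc⟩
  have h6 := h5.2
  rw [sm_mul hι (Spl_EG _ _), sm_EG hf, sm_EG hf] at h6
  have h7 : (fun i => ((γ (f i) : (Matrix (Fin (n (f i))) (Fin (n (f i))) ℂ)ˣ) : Matrix (Fin (n (f i))) (Fin (n (f i))) ℂ)) =
      fun i => (g i : Matrix (Fin (n (f i))) (Fin (n (f i))) ℂ) := funext fun i => by rw [hγ1]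
  rw [h7] at h6
  have h8 := hT.torsor _ h6 _ hc x hx
  rw [Matrix.mul_assoc, Matrix.mul_assoc, ← Matrix.mul_assoc (EG C₀ fun i => Z (f i)),
    Matrix.mul_nonsing_inv _ ((Matrix.isUnit_iff_isUnit_det _).1 hcu), Matrix.one_mul] at h8
  exact h8

end Pool.Agent.NH25.GR
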