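import Mathlib

/-!
# The transcendence degree of a finitely generated extension
-/

set_option autoImplicit false

open Cardinal

namespace Pool.Agent.NH25.GR

theorem alg_adjoin {K F : Type} [Field K] [Field F] [Algebra K F] (s : Set F)
    (hs : IntermediateField.adjoin K s = ⊤) : Algebra.IsAlgebraic (Algebra.adjoin K s) F := by
  constructor
  intro y
  have hy : y ∈ IntermediateField.adjoin K s := by rw [hs]; trivial
  induction hy using IntermediateField.adjoin_induction with
  | mem y hy =>
    exact isAlgebraic_algebraMap (⟨y, Algebra.subset_adjoin hy⟩ : Algebra.adjoin K s)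
  | algebraMap k =>
    exact isAlgebraic_algebraMap (algebraMap K (Algebra.adjoin K s) k)
  | add a b _ _ ha hb => exact ha.add hb
  | inv a _ ha => exact ha.inv
  | mul a b _ _ ha hb => exact ha.mul hb

theorem trdeg_fin {K L : Type} [Field K] [Field L] [Algebra K L] (S : Set L) :
    Algebra.trdeg K (IntermediateField.adjoin K S) ≤ #S := by
  have h1 : IntermediateField.adjoin K {x : IntermediateField.adjoin K S | (x : L) ∈ S} = ⊤ := by
    rw [← top_le_iff]
    rintro x -
    have h2 : (x : L) ∈ (IntermediateField.adjoin K {x : IntermediateField.adjoin K S | (x : L) ∈ S}).map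
        (IntermediateField.adjoin K S).val := by
      rw [IntermediateField.adjoin_map]
      have h3 : (IntermediateField.adjoin K S).val '' {x : IntermediateField.adjoin K S | (x : L) ∈ S} = S := by
        ext y
        constructor
        · rintro ⟨z, hz, rfl⟩
          exact hz
        · intro hy
          exact ⟨⟨y, IntermediateField.subset_adjoin K S hy⟩, hy, rfl⟩
      rw [h3]
      exact x.2
    obtain ⟨z, hz, hzx⟩ := h2
    have : z = x := Subtype.ext hzx
    rw [← this]
    exact hz
  have h4 := alg_adjoin _ h1
  have h5 := Algebra.IsAlgebraic.trdeg_le_cardinalMk K {x : IntermediateField.adjoin K S | (x : L) ∈ S}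
  refine h5.trans ?_
  exact Cardinal.mk_le_of_injective (f := fun x : {x : IntermediateField.adjoin K S | (x : L) ∈ S} =>
    (⟨(x.1 : L), x.2⟩ : S)) (by
    intro x y h
    have := congrArg Subtype.val h
    exact Subtype.ext (Subtype.ext this))

end Pool.Agent.NH25.GR
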