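import Pool.Agent.NH25.GR.Pro
import Pool.Agent.NH25.AP.All

/-!
# Windows around algebraic points: two fibres
-/

set_option autoImplicit false
set_option linter.unusedSectionVars false

open Matrix Module PowerSeries Filter Topology

namespace Pool.Agent.NH25.GR

open Pool.Agent.Y916.Al Pool.Agent.Y916.Af Pool.Agent.Y119.HZ Pool.Agent.Y118.UL Pool.Agent.NH25.AP
open Pool.Agent.TH127.PT Pool.Agent.Y123.ST Pool.Agent.Y123.GN
open Pool.Agent.Y113 hiding ix

section

variable {n k p q : ℕ} {B₀ : Type} [Fintype B₀] [DecidableEq B₀]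

/-- polynomials over `ℚ` -/
theorem exists_rat {ι : Type} (P : MvPolynomial ι ℂ) (hP : ∀ m, P.coeff m ∈ (⊥ : Subfield ℂ)) :
    ∃ P₀ : MvPolynomial ι ℚ, MvPolynomial.map (algebraMap ℚ ℂ) P₀ = P ∧ P₀.totalDegree = P.totalDegree := by
  classical
  have hq : ∀ x ∈ (⊥ : Subfield ℂ), ∃ a : ℚ, algebraMap ℚ ℂ a = x := by
    intro x hx
    have h1 : (⊥ : Subfield ℂ) ≤ (algebraMap ℚ ℂ).fieldRange := bot_le
    exact h1 hx
  choose a ha using fun m => hq _ (hP m)
  refine ⟨∑ m ∈ P.support, MvPolynomial.monomial m (a m), ?_, ?_⟩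
  · rw [map_sum]
    conv_rhs => rw [P.as_sum]
    refine Finset.sum_congr rfl fun m _ => ?_
    rw [MvPolynomial.map_monomial, ha]
  · have h1 : MvPolynomial.map (algebraMap ℚ ℂ) (∑ m ∈ P.support, MvPolynomial.monomial m (a m)) = P := by
      rw [map_sum]
      conv_rhs => rw [P.as_sum]
      refine Finset.sum_congr rfl fun m _ => ?_
      rw [MvPolynomial.map_monomial, ha]
    conv_rhs => rw [← h1]
    unfold MvPolynomial.totalDegree
    rw [MvPolynomial.support_map_of_injective _ (algebraMap ℚ ℂ).injective]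

/-- the generic matrix of a block -/
noncomputable def MW (N : Matrix (Fin n) (Fin n) ℤ) (o : Matrix (Fin n) (Fin n) (MvPolynomial (Fin p ⊕ Fin q) ℚ))
    (i : Fin k) : Matrix (Fin n) (Fin n) (MvPolynomial ((Fin p ⊕ Fin q) ⊕ Fin k × Option (Fin (n * n))) ℚ) :=
  o.map (MvPolynomial.rename Sum.inl) * eNg N (MvPolynomial.X (Sum.inr (i, none))) *
    Matrix.of fun a b => MvPolynomial.X (Sum.inr (i, some ((ix n).symm (b, a))))

/-- the generic block matrix -/
noncomputable def FW (N : Matrix (Fin n) (Fin n) ℤ) (o : Matrix (Fin n) (Fin n) (MvPolynomial (Fin p ⊕ Fin q) ℚ))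
    (c : Matrix B₀ B₀ (MvPolynomial (Fin p ⊕ Fin q) ℚ)) :
    IG B₀ (fun _ : Fin k => n) × IG B₀ (fun _ : Fin k => n) →
      MvPolynomial ((Fin p ⊕ Fin q) ⊕ Fin k × Option (Fin (n * n))) ℚ
  | (Sum.inl a, Sum.inl b) => MvPolynomial.rename Sum.inl (c a b)
  | (Sum.inl _, Sum.inr _) => 0
  | (Sum.inr _, Sum.inl _) => 0
  | (Sum.inr a, Sum.inr b) => if a.1 = b.1 then MW N o a.1 a.2 b.2 else 0

theorem MW_eval (N : Matrix (Fin n) (Fin n) ℤ) (o : Matrix (Fin n) (Fin n) (MvPolynomial (Fin p ⊕ Fin q) ℚ))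
    (κ : Fin p ⊕ Fin q → ℂ) (y : Fin k × Option (Fin (n * n)) → ℂ) (i : Fin k) (a b : Fin n) :
    MvPolynomial.aeval (Sum.elim κ y) (MW N o i a b) =
      (o.map (MvPolynomial.aeval κ) * eN N (y (i, none)) *
        Matrix.of fun a b => y (i, some ((ix n).symm (b, a)))) a b := by
  unfold MW
  rw [Matrix.mul_apply, Matrix.mul_apply, map_sum]
  refine Finset.sum_congr rfl fun j _ => ?_
  rw [map_mul, Matrix.mul_apply, Matrix.mul_apply, map_sum]
  congr 1
  · refine Finset.sum_congr rfl fun l _ => ?_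
    rw [map_mul]
    congr 1
    · rw [Matrix.map_apply, Matrix.map_apply, MvPolynomial.aeval_rename]
      rfl
    · have h1 := eNg_map (MvPolynomial.aeval (Sum.elim κ y) : MvPolynomial ((Fin p ⊕ Fin q) ⊕ Fin k × Option (Fin (n * n))) ℚ
        →ₐ[ℚ] ℂ).toRingHom N (MvPolynomial.X (Sum.inr (i, none))) l j
      refine h1.trans ?_
      have h2 : (MvPolynomial.aeval (Sum.elim κ y) : MvPolynomial ((Fin p ⊕ Fin q) ⊕ Fin k × Option (Fin (n * n))) ℚ
        →ₐ[ℚ] ℂ).toRingHom (MvPolynomial.X (Sum.inr (i, none))) = y (i, none) := MvPolynomial.aeval_X _ _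
      rw [h2, eNg_C]
  · exact MvPolynomial.aeval_X _ _

theorem FW_eval (N : Matrix (Fin n) (Fin n) ℤ) (o : Matrix (Fin n) (Fin n) (MvPolynomial (Fin p ⊕ Fin q) ℚ))
    (c : Matrix B₀ B₀ (MvPolynomial (Fin p ⊕ Fin q) ℚ)) (κ : Fin p ⊕ Fin q → ℂ)
    (y : Fin k × Option (Fin (n * n)) → ℂ) (x : IG B₀ (fun _ : Fin k => n) × IG B₀ (fun _ : Fin k => n)) :
    MvPolynomial.aeval (Sum.elim κ y) (FW N o c x) =
      fl (EG (c.map (MvPolynomial.aeval κ)) fun i : Fin k => o.map (MvPolynomial.aeval κ) * eN N (y (i, none)) *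
        Matrix.of fun a b => y (i, some ((ix n).symm (b, a)))) x := by
  obtain ⟨a | ⟨i, a⟩, b | ⟨j, b⟩⟩ := x
  · show MvPolynomial.aeval (Sum.elim κ y) (MvPolynomial.rename Sum.inl (c a b)) = MvPolynomial.aeval κ (c a b)
    rw [MvPolynomial.aeval_rename]
    rfl
  · exact map_zero _
  · exact map_zero _
  · show MvPolynomial.aeval (Sum.elim κ y) (if i = j then MW N o i a b else 0) =
      blockDiagonal' (fun i : Fin k => o.map (MvPolynomial.aeval κ) * eN N (y (i, none)) *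
        Matrix.of fun a b => y (i, some ((ix n).symm (b, a)))) ⟨i, a⟩ ⟨j, b⟩
    by_cases hij : i = j
    · subst hij
      rw [if_pos rfl, MW_eval, blockDiagonal'_apply_eq]
    · rw [if_neg hij, map_zero, blockDiagonal'_apply_ne _ _ _ hij]

theorem aeval_compQ {B σ : Type} (Φ : B → MvPolynomial σ ℚ) (P : MvPolynomial B ℚ) (z : σ → ℂ) :
    MvPolynomial.aeval z (MvPolynomial.aeval Φ P) =
      MvPolynomial.eval (fun b => MvPolynomial.aeval z (Φ b)) (MvPolynomial.map (algebraMap ℚ ℂ) P) := by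
  induction P using MvPolynomial.induction_on with
  | C a =>
    rw [MvPolynomial.aeval_C, MvPolynomial.map_C, MvPolynomial.eval_C]
    exact MvPolynomial.aeval_C _ _
  | add p q hp hq => rw [map_add, map_add, hp, hq, map_add, map_add]
  | mul_X p b hp =>
    rw [map_mul, map_mul, hp, MvPolynomial.aeval_X, map_mul, map_mul, MvPolynomial.map_X, MvPolynomial.eval_X]

theorem deg_comp {B σ : Type} (Φ : B → MvPolynomial σ ℚ) {D : ℕ} (hΦ : ∀ b, (Φ b).totalDegree ≤ D)
    (P : MvPolynomial B ℚ) : (MvPolynomial.aeval Φ P).totalDegree ≤ D * P.totalDegree := by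
  classical
  rw [MvPolynomial.aeval_def, MvPolynomial.eval₂_eq]
  refine (MvPolynomial.totalDegree_finsetSum _ _).trans (Finset.sup_le fun m hm => ?_)
  refine (MvPolynomial.totalDegree_mul _ _).trans ?_
  have h1 : (algebraMap ℚ (MvPolynomial σ ℚ) (P.coeff m)).totalDegree = 0 := MvPolynomial.totalDegree_C _
  rw [h1, zero_add]
  refine (MvPolynomial.totalDegree_finsetProd _ _).trans ?_
  have h2 : ∀ b ∈ m.support, (Φ b ^ m b).totalDegree ≤ D * m b := by
    intro b _
    refine (MvPolynomial.totalDegree_pow _ _).trans ?_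
    rw [mul_comm]
    exact Nat.mul_le_mul_right _ (hΦ b)
  refine (Finset.sum_le_sum h2).trans ?_
  rw [← Finset.mul_sum]
  exact Nat.mul_le_mul_left _ (MvPolynomial.le_totalDegree hm)

end

end Pool.Agent.NH25.GR
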