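import Pool.Agent.NH25.GR.Win

/-!
# Windows around algebraic points: relations of the period matrices
-/

set_option autoImplicit false
set_option linter.unusedSectionVars false

open Matrix Module PowerSeries Filter Topology

namespace Pool.Agent.NH25.GR

open Pool.Agent.Y916.Al Pool.Agent.Y916.Af Pool.Agent.Y119.HZ Pool.Agent.Y118.UL Pool.Agent.NH25.AP
open Pool.Agent.TH127.PT Pool.Agent.Y123.ST Pool.Agent.Y123.GN
open Pool.Agent.Y113 hiding ix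

section

variable {n k p q : ℕ} {B₀ : Type} [Fintype B₀] [DecidableEq B₀]

/-- **the relations of the period matrices are preserved by the unipotent elements** -/
theorem Rl_W {N : Matrix (Fin n) (Fin n) ℤ} {H : Matrix (Fin n) (Fin n) ℚ⟦X⟧} {C : ℝ} (hC : 0 ≤ C)
    (hh : ∀ a b m, |((coeff m (H a b) : ℚ) : ℝ)| ≤ C ^ (m + 1)) (hN : N ^ n = 0) (d k : ℕ)
    (o : Matrix (Fin n) (Fin n) (MvPolynomial (Fin p ⊕ Fin q) ℚ)) (c : Matrix B₀ B₀ (MvPolynomial (Fin p ⊕ Fin q) ℚ)) :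
    ∃ δ : ℕ, ∀ (κ : Fin p ⊕ Fin q → ℂ) (Ω : Matrix (Fin n) (Fin n) ℂ) (C₀ : Matrix B₀ B₀ ℂ),
      Ω = o.map (MvPolynomial.aeval κ) → C₀ = c.map (MvPolynomial.aeval κ) → ∀ (α ℓ : Fin k → ℂ), IsUnit Ω →
      (∀ i, Complex.exp (ℓ i) = α i) → (∀ i, C < ‖α i‖) →
      (∀ Y : Set (Fin k × Option (Fin (n * n)) → ℂ), Irr Y → ptc (hT H) α ℓ ∈ Y →
        (∀ y ∈ Y, ∀ j, (fun i => y (j, some i)) ∈ Vc (hT H) (1 / α j)) →
        ∀ P : MvPolynomial ((Fin p ⊕ Fin q) ⊕ Fin k × Option (Fin (n * n))) (⊥ : IntermediateField ℚ ℂ),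
        P.totalDegree ≤ δ → MvPolynomial.aeval (Sum.elim κ (ptc (hT H) α ℓ)) P = 0 →
        ∀ y ∈ Y, MvPolynomial.aeval (Sum.elim κ y) P = 0) →
      ∀ g ∈ Ug (GG B₀ fun _ : Fin k => Gl N H Ω),
        Rl ⊥ d (EG C₀ fun i => pC N H Ω (α i) (ℓ i)) (g * EG C₀ fun i => pC N H Ω (α i) (ℓ i)) := by
  classical
  obtain ⟨D₁, hD₁⟩ : ∃ D₁ : ℕ, ∀ b, (FW (k := k) N o c b).totalDegree ≤ D₁ :=
    ⟨∑ b, (FW (k := k) N o c b).totalDegree, fun b => Finset.single_le_sum (f := fun b => (FW (k := k) N o c b).totalDegree)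
      (fun _ _ => Nat.zero_le _) (Finset.mem_univ b)⟩
  refine ⟨D₁ * d, fun κ Ω C₀ hΩe hC₀e α ℓ hΩ hℓ hα hwin g hg => ?_⟩
  have hFWe : ∀ (y : Fin k × Option (Fin (n * n)) → ℂ) (P : MvPolynomial (IG B₀ (fun _ : Fin k => n) × IG B₀ (fun _ : Fin k => n)) ℚ),
      MvPolynomial.aeval (Sum.elim κ y) (MvPolynomial.aeval (FW N o c) P) =
        MvPolynomial.eval (fl (EG C₀ fun i : Fin k => Ω * eN N (y (i, none)) *
          Matrix.of fun a b => y (i, some ((ix n).symm (b, a))))) (MvPolynomial.map (algebraMap ℚ ℂ) P) := by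
    intro y P
    rw [aeval_compQ, hΩe, hC₀e]
    congr 2
    funext x
    exact FW_eval N o c κ y x
  obtain ⟨γ, γ', h1, h2, h3, h4⟩ := Ug_curve hg
  have hblk : ∀ s, ∃ u : ∀ _ : Fin k, (Matrix (Fin n) (Fin n) ℂ)ˣ, (∀ i, u i ∈ Gl N H Ω) ∧
      Pool.Agent.Y123.GN.ev s γ = EG 1 (fun i => (u i : Matrix (Fin n) (Fin n) ℂ)) ∧
      ∀ i, Pool.Agent.Y123.GN.ev s (gB γ i) = u i := by
    intro s
    obtain ⟨v, hv, hv'⟩ := h4 s
    obtain ⟨u, hu, rfl⟩ := Ug_le _ hv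
    have h5 : Pool.Agent.Y123.GN.ev s γ = EG 1 (fun i => (u i : Matrix (Fin n) (Fin n) ℂ)) := hv'.symm
    exact ⟨u, fun i => hu i (Set.mem_univ i), h5, fun i => gB_ev h5 i⟩
  obtain ⟨pp, hpp⟩ : ∃ pp : ∀ _ : Fin k, Matrix (Fin n) (Fin n) ℂ, pp = fun i => pC N H Ω (α i) (ℓ i) := ⟨_, rfl⟩
  rw [← hpp]
  intro F hF hd h0
  obtain ⟨F₀, hF₀, hF₀d⟩ := exists_rat F hF
  obtain ⟨G, hG⟩ : ∃ G : Fin k × Option (Fin (n * n)) → Polynomial ℂ,
    G = fun c => Gc (fun _ : Fin k => N) (fun _ => Ω) ℓ pp (gB γ) ⟨c.1, c.2⟩ := ⟨_, rfl⟩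
  have hev0 : ∀ i, Pool.Agent.Y123.GN.ev 0 (gB γ i) = 1 := fun i => ev0_blk h2 i
  have hPs : ∀ s : ℂ, MvPolynomial.aeval (Sum.elim κ fun c => (G c).eval s) (MvPolynomial.aeval (FW N o c) F₀) =
      MvPolynomial.eval (fl (Pool.Agent.Y123.GN.ev s γ * EG C₀ pp)) F := by
    intro s
    obtain ⟨u, hu, hu1, hu2⟩ := hblk s
    rw [hFWe, hF₀, hu1, EG_mul, Matrix.one_mul, hG]
    have h5 : (fun i : Fin k => Ω * eN N ((Gc (fun _ : Fin k => N) (fun _ => Ω) ℓ pp (gB γ) ⟨i, none⟩).eval s) *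
      (Matrix.of fun a b => (Gc (fun _ : Fin k => N) (fun _ => Ω) ℓ pp (gB γ) ⟨i, some ((ix n).symm (b, a))⟩).eval s)) =
        fun i => (u i : Matrix (Fin n) (Fin n) ℂ) * pp i := by
      funext i
      have h6 := Gc_total (N := fun _ : Fin k => N) (Ω := fun _ : Fin k => Ω) (fun _ => hN) (fun _ => hΩ) ℓ pp (gB γ) s i
      rw [hu2] at h6
      exact h6
    rw [h5]
  have hy0 : (fun c => (G c).eval 0) = ptc (hT H) α ℓ := by
    funext c
    obtain ⟨i, _ | a⟩ := c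
    · rw [hG]
      simp only []
      rw [Gc_none]
      rfl
    · rw [hG]
      simp only []
      rw [Gc_some, hev0, Matrix.one_mul, hpp]
      simp only []
      rw [pC_inv hN hΩ]
      rfl
  have hfin := hwin {y | ∃ s : ℂ, ∀ c, y c = (G c).eval s} (irr_crv G) ⟨0, fun c => congrFun hy0.symm c⟩ (by
      rintro y ⟨s, hs⟩ i
      obtain ⟨u, hu, hu1, hu2⟩ := hblk s
      have h5 := crv hN hC hh hΩ (hu i).1 (hℓ i) (hα i)
      have h6 : (fun a => y (i, some a)) =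
          yM (eN N (-ℓ i) * Ω⁻¹ * ((u i : Matrix (Fin n) (Fin n) ℂ) * pC N H Ω (α i) (ℓ i))) := by
        funext a
        rw [hs, hG]
        simp only []
        rw [Gc_some, hu2, hpp]
      rw [h6]
      exact h5)
    (MvPolynomial.map (algebraMap ℚ (⊥ : IntermediateField ℚ ℂ)) (MvPolynomial.aeval (FW N o c) F₀)) (by
      refine le_trans ?_ ((deg_comp (FW N o c) hD₁ F₀).trans (Nat.mul_le_mul_left _ (hF₀d.le.trans hd)))
      unfold MvPolynomial.totalDegree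
      refine Finset.sup_mono fun m hm => ?_
      rw [MvPolynomial.mem_support_iff] at hm ⊢
      intro h
      rw [MvPolynomial.coeff_map, h, map_zero] at hm
      exact hm rfl) (by
      rw [MvPolynomial.aeval_map_algebraMap, ← hy0, hPs, h2, Matrix.one_mul]
      exact h0)
    (fun c => (G c).eval 1) ⟨1, fun c => rfl⟩
  rw [MvPolynomial.aeval_map_algebraMap, hPs, h3] at hfin
  exact hfin

end

end Pool.Agent.NH25.GR
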