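import Pool.Agent.NH25.GR.Win2
import Pool.Agent.NH25.GR.Trd

/-!
# Windows around algebraic points: all fibres at once
-/

set_option autoImplicit false
set_option linter.unusedSectionVars false

open Matrix Module PowerSeries Filter Topology

namespace Pool.Agent.NH25.GR

open Pool.Agent.Y916.Al Pool.Agent.Y916.Af Pool.Agent.Y119.HZ Pool.Agent.Y118.UL Pool.Agent.NH25.AP
open Pool.Agent.TH127.PT Pool.Agent.Y123.ST Pool.Agent.Y123.GN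
open Pool.Agent.Y113 hiding ix

section

variable {n p q : ℕ}

/-- **two fibres** -/
theorem win2 {N : Matrix (Fin n) (Fin n) ℤ} {H : Matrix (Fin n) (Fin n) ℚ⟦X⟧} (hN : N ^ n = 0) (hnr : NRh (hT H))
    {C : ℝ} (hC : 0 ≤ C) (hh : ∀ a b m, |((coeff m (H a b) : ℚ) : ℝ)| ≤ C ^ (m + 1)) :
    ∃ G0 : ℕ, 1 ≤ G0 ∧ ∀ G : ℕ, G0 ≤ G → ∀ (p : ℕ) (Θ : Fin p → ℂ) (q r m D A : ℕ)
      (o : Matrix (Fin n) (Fin n) (MvPolynomial (Fin p ⊕ Fin q) ℚ))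
      (c : Matrix (Fin r) (Fin r) (MvPolynomial (Fin p ⊕ Fin q) ℚ)), ∃ E : ℕ, ∀ (L : ℕ) (ξ : ℂ),
      ((L : ℝ) + 2) ^ E ≤ ‖ξ‖ → Ht m A ξ → ∀ w : Fin q → ℂ, ∃ S : Finset ℕ,
      (S.card : Cardinal) ≤ Algebra.trdeg ℚ (IntermediateField.adjoin ℚ (insert (2 * Real.pi * Complex.I) (Set.range Θ))) +
        q + 1 ∧
      ∀ u : Fin 2 → ℕ, Function.Injective u → (∀ j, 1 ≤ u j ∧ u j ≤ L ∧ u j ∉ S) →
      ∀ ℓ : Fin 2 → ℂ, (∀ j, Complex.exp (ℓ j) = ξ - ((G * u j : ℕ) : ℂ)) →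
      ∀ (Ω : Matrix (Fin n) (Fin n) ℂ) (C₀ : Matrix (Fin r) (Fin r) ℂ), Ω = o.map (MvPolynomial.aeval (Sum.elim Θ w)) →
        C₀ = c.map (MvPolynomial.aeval (Sum.elim Θ w)) →
        GoodT D (fun _ : Fin 2 => Gl N H Ω) (EG C₀ fun j => pC N H Ω (ξ - ((G * u j : ℕ) : ℂ)) (ℓ j)) := by
  classical
  have hsize : SZ (hT H) := ⟨C, fun a m => hh _ _ m⟩
  obtain ⟨G0, hG0, hwin⟩ := winDs hnr hsize
  refine ⟨G0, hG0, fun G hG p Θ q r m D A o c => ?_⟩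
  have hG1 : 1 ≤ G := hG0.trans hG
  have hGR : (1 : ℝ) ≤ G := by exact_mod_cast hG1
  obtain ⟨d, hd⟩ := stabT (r + (n + n)) D
  obtain ⟨δ, hδ⟩ := Rl_W hC hh hN d 2 o c
  obtain ⟨δ₁, E, hE⟩ := hwin G hG p Θ q 2 m 1 δ A
  obtain ⟨B, hB⟩ := exists_nat_ge C
  refine ⟨E + (G + 1 + B + 1), fun L ξ hξ hHt w => ?_⟩
  have hH2 : (2 : ℝ) ≤ (L : ℝ) + 2 := by linarith [(Nat.cast_nonneg L : (0 : ℝ) ≤ L)]
  have hH1 : (1 : ℝ) ≤ (L : ℝ) + 2 := by linarith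
  have h2n : ∀ n : ℕ, (n : ℝ) ≤ ((L : ℝ) + 2) ^ n := fun n => by
    refine le_trans ?_ (pow_le_pow_left₀ (by norm_num) hH2 n)
    exact_mod_cast (Nat.lt_two_pow_self (n := n)).le
  have hGB : (G : ℝ) * (L + 2) + (B : ℕ) ≤ ‖ξ‖ := by
    refine le_trans ?_ ((pow_le_pow_right₀ hH1 (by omega : G + 1 + B + 1 ≤ E + (G + 1 + B + 1))).trans hξ)
    have h1 := h2n G
    have h3 : (1 : ℝ) ≤ ((L : ℝ) + 2) ^ (G + 1) := one_le_pow₀ hH1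
    have h4 : (1 : ℝ) ≤ ((L : ℝ) + 2) ^ B := one_le_pow₀ hH1
    have h5 : (G : ℝ) * (L + 2) ≤ ((L : ℝ) + 2) ^ (G + 1) := by
      rw [pow_succ]
      exact mul_le_mul_of_nonneg_right h1 (by linarith)
    have h6 := h2n B
    calc (G : ℝ) * (L + 2) + (B : ℕ) ≤ ((L : ℝ) + 2) ^ (G + 1) + ((L : ℝ) + 2) ^ B := add_le_add h5 h6
      _ ≤ ((L : ℝ) + 2) ^ (G + 1) * ((L : ℝ) + 2) ^ B * 2 := by nlinarith
      _ ≤ ((L : ℝ) + 2) ^ (G + 1) * ((L : ℝ) + 2) ^ B * ((L : ℝ) + 2) :=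
          mul_le_mul_of_nonneg_left hH2 (by positivity)
      _ = _ := by rw [← pow_add, ← pow_succ]
  obtain ⟨S, hS, h1⟩ := hE L ξ ((pow_le_pow_right₀ hH1 (by omega)).trans hξ) hHt w
  refine ⟨S, hS, fun u hu hub ℓ hℓ Ω C₀ hΩe hC₀e => ?_⟩
  have hα : ∀ j, C < ‖ξ - ((G * u j : ℕ) : ℂ)‖ := by
    intro j
    have h5 := norm_sub_norm_le ξ ((G * u j : ℕ) : ℂ)
    rw [Complex.norm_natCast] at h5
    have h6 : ((G * u j : ℕ) : ℝ) ≤ G * L := by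
      push_cast
      exact mul_le_mul_of_nonneg_left (by exact_mod_cast (hub j).2.1) (by linarith)
    nlinarith
  by_cases hΩ : IsUnit Ω
  · refine hd (Fin r) 2 (fun _ => n) ?_ _ _ fun g hg => ?_
    · rw [Fintype.card_sum, Fintype.card_sigma, Fintype.card_fin, Fin.sum_univ_two, Fintype.card_fin]
    · refine hδ (Sum.elim Θ w) Ω C₀ hΩe hC₀e _ ℓ hΩ hℓ hα ?_ g hg
      intro Y hY hptY hVc P hPd hP0 y hy
      exact h1 u hu hub ℓ hℓ Y (irrD_of_irr hY _) hptY hVc ⊥ inferInstance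
        (by rw [IntermediateField.finrank_bot]) P hPd hP0 y hy
  · intro K hKf hKD T' hT' hcT
    exfalso
    apply hΩ
    have h3 : IsUnit (pC N H Ω (ξ - ((G * u 0 : ℕ) : ℂ)) (ℓ 0)) := EG_block_unit (hT'.isUnit _ hcT) 0
    rw [Matrix.isUnit_iff_isUnit_det] at h3 ⊢
    unfold pC at h3
    rw [Matrix.det_mul, Matrix.det_mul] at h3
    exact isUnit_of_mul_isUnit_left (isUnit_of_mul_isUnit_left h3)

/-- the conclusion for perfect groups -/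
def GoodP {k : ℕ} {n : Fin k → ℕ} {B₀ : Type} [Fintype B₀] [DecidableEq B₀] (D : ℕ)
    (𝒢 : ∀ i, Subgroup (Matrix (Fin (n i)) (Fin (n i)) ℂ)ˣ) (c : Matrix (IG B₀ n) (IG B₀ n) ℂ) : Prop :=
  ∀ K : Subfield ℂ, FiniteDimensional ℚ K → finrank ℚ K ≤ D → ∀ T : Set (Matrix (IG B₀ n) (IG B₀ n) ℂ),
    IsSubtorsor K T → c ∈ T → ∀ V : ∀ i, Subgroup (Matrix (Fin (n i)) (Fin (n i)) ℂ)ˣ,
      (∀ i, V i ≤ ⁅Ug (𝒢 i), Ug (𝒢 i)⁆) → (∀ i, V i ≤ ⁅V i, V i⁆) →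
      ∀ g : ∀ i, (Matrix (Fin (n i)) (Fin (n i)) ℂ)ˣ, (∀ i, g i ∈ V i) →
        ∀ x ∈ T, EG 1 (fun i => (g i : Matrix (Fin (n i)) (Fin (n i)) ℂ)) * x ∈ T

theorem field_countable (K : Subfield ℂ) (hKf : FiniteDimensional ℚ K) : (K : Set ℂ).Countable := by
  have h1 : ({x : ℂ | IsAlgebraic ℚ x} : Set ℂ).Countable := Algebraic.countable ℚ ℂ
  refine h1.mono fun x hx => ?_
  have h2 : IsAlgebraic ℚ (⟨x, hx⟩ : K) := Algebra.IsAlgebraic.isAlgebraic _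
  exact h2.algebraMap (A := ℂ)

/-- **Goursat-Ribet, number fields of bounded degree** -/
theorem goodP_of {k : ℕ} {n : Fin k → ℕ} {B₀ : Type} [Fintype B₀] [DecidableEq B₀] {D : ℕ} {C₀ : Matrix B₀ B₀ ℂ}
    {Z : ∀ i, Matrix (Fin (n i)) (Fin (n i)) ℂ} {𝒢 : ∀ i, Subgroup (Matrix (Fin (n i)) (Fin (n i)) ℂ)ˣ}
    (h1 : ∀ f : Fin 1 → Fin k, Function.Injective f → GoodT D (fun i => 𝒢 (f i)) (EG C₀ fun i => Z (f i)))
    (h2 : ∀ f : Fin 2 → Fin k, Function.Injective f → GoodT D (fun i => 𝒢 (f i)) (EG C₀ fun i => Z (f i))) :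
    GoodP D 𝒢 (EG C₀ Z) := by
  intro K hKf hKD T hT hc V hV hperf g hg
  exact gr_all (field_countable K hKf) (fun f hf => h1 f hf K hKf hKD) (fun f hf => h2 f hf K hKf hKD) hV hperf hT hc hg

/-- **all fibres in the window** -/
theorem winAll {N : Matrix (Fin n) (Fin n) ℤ} {H : Matrix (Fin n) (Fin n) ℚ⟦X⟧} (hN : N ^ n = 0) (hnr : NRh (hT H))
    {C : ℝ} (hC : 0 ≤ C) (hh : ∀ a b m, |((coeff m (H a b) : ℚ) : ℝ)| ≤ C ^ (m + 1)) 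
    (hHu : ∀ z : ℂ, C < ‖z‖ → IsUnit (Hm H z)) :
    ∃ G0 : ℕ, 1 ≤ G0 ∧ ∀ G : ℕ, G0 ≤ G → ∀ (p : ℕ) (Θ : Fin p → ℂ) (q r m D A : ℕ)
      (o : Matrix (Fin n) (Fin n) (MvPolynomial (Fin p ⊕ Fin q) ℚ))
      (c : Matrix (Fin r) (Fin r) (MvPolynomial (Fin p ⊕ Fin q) ℚ)), ∃ E : ℕ, ∀ (L : ℕ) (ξ : ℂ),
      ((L : ℝ) + 2) ^ E ≤ ‖ξ‖ → Ht m A ξ → ∀ w : Fin q → ℂ, ∃ S : Finset ℕ,
      (S.card : Cardinal) ≤ Algebra.trdeg ℚ (IntermediateField.adjoin ℚ (insert (2 * Real.pi * Complex.I) (Set.range Θ))) +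
        q + 1 ∧
      ∀ (k : ℕ) (u : Fin k → ℕ), Function.Injective u → (∀ j, 1 ≤ u j ∧ u j ≤ L ∧ u j ∉ S) →
      ∀ ℓ : Fin k → ℂ, (∀ j, Complex.exp (ℓ j) = ξ - ((G * u j : ℕ) : ℂ)) →
      ∀ (Ω : Matrix (Fin n) (Fin n) ℂ) (C₀ : Matrix (Fin r) (Fin r) ℂ), Ω = o.map (MvPolynomial.aeval (Sum.elim Θ w)) →
        C₀ = c.map (MvPolynomial.aeval (Sum.elim Θ w)) →
        GoodP D (fun _ : Fin k => Gl N H Ω) (EG C₀ fun j => pC N H Ω (ξ - ((G * u j : ℕ) : ℂ)) (ℓ j)) := by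
  classical
  obtain ⟨G0, hG0, hwin⟩ := win2 hN hnr hC hh
  refine ⟨G0, hG0, fun G hG p Θ q r m D A o c => ?_⟩
  obtain ⟨E, hE⟩ := hwin G hG p Θ q r m D A o c
  have hG1 : 1 ≤ G := hG0.trans hG
  have hGR : (1 : ℝ) ≤ G := by exact_mod_cast hG1
  -- the bound for the exceptional set
  obtain ⟨t, ht⟩ : ∃ t : ℕ, t = p + 1 + q + 1 := ⟨_, rfl⟩
  have htr : Algebra.trdeg ℚ (IntermediateField.adjoin ℚ (insert (2 * Real.pi * Complex.I) (Set.range Θ))) + q + 1 ≤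
      (t : Cardinal) := by
    have h1 := trdeg_fin (K := ℚ) (insert (2 * Real.pi * Complex.I : ℂ) (Set.range Θ))
    have h2 : Cardinal.mk (insert (2 * Real.pi * Complex.I : ℂ) (Set.range Θ) : Set ℂ) ≤ (p + 1 : ℕ) := by
      refine (Cardinal.mk_insert_le).trans ?_
      have h3 : Cardinal.mk (Set.range Θ) ≤ (p : Cardinal) := by
        refine Cardinal.mk_range_le.trans ?_
        rw [Cardinal.mk_fin]
      push_cast
      exact add_le_add h3 le_rfl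
    rw [ht]
    push_cast
    refine add_le_add (add_le_add ?_ le_rfl) le_rfl
    refine h1.trans (h2.trans ?_)
    push_cast
    exact le_rfl
  obtain ⟨B, hB⟩ := exists_nat_ge C
  refine ⟨(E + (G + 1 + B + 1)) * (t + 5), fun L ξ hξ hHt w => ?_⟩
  have hL0 : (0 : ℝ) ≤ L := Nat.cast_nonneg L
  have hbig : (((L + t + 2 : ℕ) : ℝ) + 2) ^ (E + (G + 1 + B + 1)) ≤ ‖ξ‖ := by
    refine le_trans ?_ hξ
    rw [mul_comm (E + (G + 1 + B + 1)), pow_mul]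
    refine pow_le_pow_left₀ (by positivity) ?_ _
    have h1 : ((t + 4 : ℕ) : ℝ) ≤ ((L : ℝ) + 2) ^ (t + 4) := by
      refine le_trans ?_ (pow_le_pow_left₀ (by norm_num) (by linarith : (2 : ℝ) ≤ (L : ℝ) + 2) _)
      exact_mod_cast (Nat.lt_two_pow_self (n := t + 4)).le
    have h3 : ((L : ℝ) + 2) ^ (t + 5) = ((L : ℝ) + 2) ^ (t + 4) * ((L : ℝ) + 2) := pow_succ _ _
    rw [h3]
    push_cast at h1 ⊢
    have h4 : (0 : ℝ) ≤ t := Nat.cast_nonneg t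
    nlinarith
  obtain ⟨L', hL'⟩ : ∃ L' : ℕ, L' = L + t + 2 := ⟨_, rfl⟩
  rw [← hL'] at hbig
  have hL0' : (0 : ℝ) ≤ L' := Nat.cast_nonneg L'
  have hH2 : (2 : ℝ) ≤ (L' : ℝ) + 2 := by linarith
  have hH1 : (1 : ℝ) ≤ (L' : ℝ) + 2 := by linarith
  have h2n : ∀ n : ℕ, (n : ℝ) ≤ ((L' : ℝ) + 2) ^ n := fun n => by
    refine le_trans ?_ (pow_le_pow_left₀ (by norm_num) hH2 n)
    exact_mod_cast (Nat.lt_two_pow_self (n := n)).le
  have hGB : (G : ℝ) * (L' + 2) + (B : ℕ) ≤ ‖ξ‖ := by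
    refine le_trans ?_ ((pow_le_pow_right₀ hH1 (by omega : G + 1 + B + 1 ≤ E + (G + 1 + B + 1))).trans hbig)
    have h1 := h2n G
    have h3 : (1 : ℝ) ≤ ((L' : ℝ) + 2) ^ (G + 1) := one_le_pow₀ hH1
    have h4 : (1 : ℝ) ≤ ((L' : ℝ) + 2) ^ B := one_le_pow₀ hH1
    have h5 : (G : ℝ) * (L' + 2) ≤ ((L' : ℝ) + 2) ^ (G + 1) := by
      rw [pow_succ]
      exact mul_le_mul_of_nonneg_right h1 (by linarith)
    have h6 := h2n B
    calc (G : ℝ) * (L' + 2) + (B : ℕ) ≤ ((L' : ℝ) + 2) ^ (G + 1) + ((L' : ℝ) + 2) ^ B := add_le_add h5 h6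
      _ ≤ ((L' : ℝ) + 2) ^ (G + 1) * ((L' : ℝ) + 2) ^ B * 2 := by nlinarith
      _ ≤ ((L' : ℝ) + 2) ^ (G + 1) * ((L' : ℝ) + 2) ^ B * ((L' : ℝ) + 2) :=
          mul_le_mul_of_nonneg_left hH2 (by positivity)
      _ = _ := by rw [← pow_add, ← pow_succ]
  have hα : ∀ b : ℕ, b ≤ L' → C < ‖ξ - ((G * b : ℕ) : ℂ)‖ := by
    intro b hb
    have h5 := norm_sub_norm_le ξ ((G * b : ℕ) : ℂ)
    rw [Complex.norm_natCast] at h5
    have h6 : ((G * b : ℕ) : ℝ) ≤ G * L' := by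
      push_cast
      exact mul_le_mul_of_nonneg_left (by exact_mod_cast hb) (by linarith)
    nlinarith
  obtain ⟨S, hS, h1⟩ := hE L' ξ ((pow_le_pow_right₀ hH1 (by omega)).trans hbig) hHt w
  refine ⟨S, hS, fun k u hu hub ℓ hℓ Ω C₀ hΩe hC₀e => ?_⟩
  have hSt : S.card ≤ t := by
    have h5 := hS.trans htr
    exact_mod_cast h5
  have hpair : ∀ f : Fin 2 → Fin k, Function.Injective f →
      GoodT D (fun _ : Fin 2 => Gl N H Ω) (EG C₀ fun i => pC N H Ω (ξ - ((G * u (f i) : ℕ) : ℂ)) (ℓ (f i))) := by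
    intro f hf
    exact h1 (fun i => u (f i)) (hu.comp hf) (fun j => ⟨(hub _).1, (hub _).2.1.trans (by omega), (hub _).2.2⟩)
      (fun i => ℓ (f i)) (fun j => hℓ (f j)) Ω C₀ hΩe hC₀e
  refine goodP_of (fun f hf => ?_) hpair
  -- one fibre
  obtain ⟨b, hb1, hb2, hb3, hb4⟩ : ∃ b, 1 ≤ b ∧ b ≤ L' ∧ b ∉ S ∧ b ≠ u (f 0) := by
    have h5 : (insert (u (f 0)) S).card < (Finset.Icc 1 L').card := by
      rw [Nat.card_Icc]
      have := Finset.card_insert_le (u (f 0)) S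
      omega
    obtain ⟨b, hb, hb'⟩ := Finset.exists_mem_notMem_of_card_lt_card h5
    rw [Finset.mem_Icc] at hb
    rw [Finset.mem_insert, not_or] at hb'
    exact ⟨b, hb.1, hb.2, hb'.2, hb'.1⟩
  by_cases hΩ : IsUnit Ω
  swap
  · intro K hKf hKD T' hT' hcT
    exfalso
    apply hΩ
    have h3 : IsUnit (pC N H Ω (ξ - ((G * u (f 0) : ℕ) : ℂ)) (ℓ (f 0))) := EG_block_unit (hT'.isUnit _ hcT) 0
    rw [Matrix.isUnit_iff_isUnit_det] at h3 ⊢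
    unfold pC at h3
    rw [Matrix.det_mul, Matrix.det_mul] at h3
    exact isUnit_of_mul_isUnit_left (isUnit_of_mul_isUnit_left h3)
  have hpu : ∀ (z l : ℂ), C < ‖z‖ → IsUnit (pC N H Ω z l) := by
    intro z l hz
    have h5 : IsUnit (eN N l) := (Matrix.isUnit_iff_isUnit_det _).2 (IsUnit.of_mul_eq_one (eN N (-l)).det (by
      rw [← Matrix.det_mul, eN_mul hN, Matrix.det_one]))
    exact (hΩ.mul h5).mul (hHu z hz)
  have hb0 : ξ - ((G * b : ℕ) : ℂ) ≠ 0 := by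
    intro h5
    have h6 := hα b hb2
    rw [h5, norm_zero] at h6
    linarith
  obtain ⟨u', hu'0, hu'1⟩ : ∃ u' : Fin 2 → ℕ, u' 0 = u (f 0) ∧ u' 1 = b := ⟨![u (f 0), b], rfl, rfl⟩
  obtain ⟨ℓ', hℓ'0, hℓ'1⟩ : ∃ ℓ' : Fin 2 → ℂ, ℓ' 0 = ℓ (f 0) ∧ ℓ' 1 = Complex.log (ξ - ((G * b : ℕ) : ℂ)) :=
    ⟨![ℓ (f 0), Complex.log (ξ - ((G * b : ℕ) : ℂ))], rfl, rfl⟩
  have hP := h1 u' (by
      intro x y hxy
      fin_cases x <;> fin_cases y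
      · rfl
      · exfalso
        apply hb4
        rw [← hu'1, ← hu'0]
        exact hxy.symm
      · exfalso
        apply hb4
        rw [← hu'1, ← hu'0]
        exact hxy
      · rfl) (by
      intro x
      fin_cases x
      · show 1 ≤ u' 0 ∧ u' 0 ≤ L' ∧ u' 0 ∉ S
        rw [hu'0]
        exact ⟨(hub _).1, (hub _).2.1.trans (by omega), (hub _).2.2⟩
      · show 1 ≤ u' 1 ∧ u' 1 ≤ L' ∧ u' 1 ∉ S
        rw [hu'1]
        exact ⟨hb1, hb2, hb3⟩) ℓ' (by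
      intro x
      fin_cases x
      · show Complex.exp (ℓ' 0) = ξ - ((G * u' 0 : ℕ) : ℂ)
        rw [hℓ'0, hu'0]
        exact hℓ _
      · show Complex.exp (ℓ' 1) = ξ - ((G * u' 1 : ℕ) : ℂ)
        rw [hℓ'1, hu'1]
        exact Complex.exp_log hb0) Ω C₀ hΩe hC₀e
  intro K hKf hKD
  have hinj : Function.Injective (fun _ : Fin 1 => (0 : Fin 2)) := fun a b _ => Subsingleton.elim a b
  have hZ : ∀ i : Fin 2, IsUnit (pC N H Ω (ξ - ((G * u' i : ℕ) : ℂ)) (ℓ' i)) := by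
    intro i
    refine hpu _ _ ?_
    fin_cases i
    · show C < ‖ξ - ((G * u' 0 : ℕ) : ℂ)‖
      rw [hu'0]
      exact hα _ ((hub _).2.1.trans (by omega))
    · show C < ‖ξ - ((G * u' 1 : ℕ) : ℂ)‖
      rw [hu'1]
      exact hα _ hb2
  have h7 := St_proj (K := K) (n := fun _ : Fin 2 => n) hinj hZ (hP K hKf hKD)
  have h8 : (fun _ : Fin 1 => pC N H Ω (ξ - ((G * u' 0 : ℕ) : ℂ)) (ℓ' 0)) =
      fun i : Fin 1 => pC N H Ω (ξ - ((G * u (f i) : ℕ) : ℂ)) (ℓ (f i)) := by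
    funext i
    have h9 : i = 0 := Subsingleton.elim i 0
    rw [h9, hu'0, hℓ'0]
  rw [h8] at h7
  exact h7

end

end Pool.Agent.NH25.GR
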